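import Mathlib

set_option autoImplicit false

namespace Pool.Agent.H896R3

open ComplexConjugate

/-! ### Merging discs -/

lemma merge_aux (n : ℕ) : ∀ T : Finset (ℂ × ℝ), T.card = n → (∀ q ∈ T, 0 < q.2) →
    (∀ p ∈ T, ∀ q ∈ T, p ≠ q → p.2 + q.2 < ‖p.1 - q.1‖) → ∀ p : ℂ × ℝ, 0 < p.2 →
    ∃ T' : Finset (ℂ × ℝ), (∀ q ∈ T', 0 < q.2) ∧
      (∀ p ∈ T', ∀ q ∈ T', p ≠ q → p.2 + q.2 < ‖p.1 - q.1‖) ∧
      ∑ q ∈ T', q.2 ≤ ∑ q ∈ T, q.2 + p.2 ∧
      (∀ q ∈ insert p T, ∃ q' ∈ T', ‖q.1 - q'.1‖ + q.2 ≤ q'.2) := by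
  induction n with
  | zero =>
    intro T hT _ _ p hp
    rw [Finset.card_eq_zero] at hT
    subst hT
    refine ⟨{p}, by simpa using hp, ?_, by simp, ?_⟩
    · intro p1 h1 q1 h2 hne
      rw [Finset.mem_singleton] at h1 h2
      exact absurd (h1.trans h2.symm) hne
    · intro q hq
      have : q = p := by simpa using hq
      subst this
      exact ⟨q, by simp, by simp⟩
  | succ n ih =>
    intro T hT hpos hdis p hp
    by_cases hall : ∀ q ∈ T, p.2 + q.2 < ‖p.1 - q.1‖
    · have hpT : p ∉ T := by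
        intro hmem
        have := hall p hmem
        rw [sub_self, norm_zero] at this
        linarith
      refine ⟨insert p T, ?_, ?_, ?_, ?_⟩
      · intro q hq
        rcases Finset.mem_insert.mp hq with rfl | hq
        · exact hp
        · exact hpos q hq
      · intro p1 h1 q1 h2 hne
        rcases Finset.mem_insert.mp h1 with e1 | g1
        · rcases Finset.mem_insert.mp h2 with e2 | g2
          · exact absurd (e1.trans e2.symm) hne
          · rw [e1]; exact hall q1 g2
        · rcases Finset.mem_insert.mp h2 with e2 | g2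
          · rw [e2, add_comm, norm_sub_rev]; exact hall p1 g1
          · exact hdis p1 g1 q1 g2 hne
      · rw [Finset.sum_insert hpT, add_comm]
      · intro q hq
        exact ⟨q, hq, by simp⟩
    · push Not at hall
      obtain ⟨q, hq, hqp⟩ := hall
      have hqpos := hpos q hq
      set c : ℂ := ((p.2 : ℂ) * p.1 + (q.2 : ℂ) * q.1) / ((p.2 : ℂ) + q.2) with hc
      have hsum : 0 < p.2 + q.2 := by linarith
      have hsumc : ((p.2 : ℂ) + q.2) ≠ 0 := by
        have : (((p.2 + q.2 : ℝ)) : ℂ) ≠ 0 := by exact_mod_cast hsum.ne'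
        simpa using this
      have e1 : p.1 - c = ((q.2 / (p.2 + q.2) : ℝ) : ℂ) * (p.1 - q.1) := by
        rw [hc]; push_cast; field_simp; ring
      have e2 : q.1 - c = ((p.2 / (p.2 + q.2) : ℝ) : ℂ) * (q.1 - p.1) := by
        rw [hc]; push_cast; field_simp; ring
      have n1 : ‖p.1 - c‖ ≤ q.2 := by
        rw [e1, norm_mul, Complex.norm_real, Real.norm_of_nonneg (by positivity)]
        calc q.2 / (p.2 + q.2) * ‖p.1 - q.1‖ ≤ q.2 / (p.2 + q.2) * (p.2 + q.2) := by gcongr
          _ = q.2 := by field_simp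
      have n2 : ‖q.1 - c‖ ≤ p.2 := by
        rw [e2, norm_mul, Complex.norm_real, Real.norm_of_nonneg (by positivity)]
        rw [norm_sub_rev] at hqp
        calc p.2 / (p.2 + q.2) * ‖q.1 - p.1‖ ≤ p.2 / (p.2 + q.2) * (p.2 + q.2) := by gcongr
          _ = p.2 := by field_simp
      have hcard : (T.erase q).card = n := by
        rw [Finset.card_erase_of_mem hq, hT]; rfl
      obtain ⟨T', h1, h2, h3, h4⟩ := ih (T.erase q) hcard
        (fun x hx => hpos x (Finset.mem_of_mem_erase hx))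
        (fun x hx y hy => hdis x (Finset.mem_of_mem_erase hx) y (Finset.mem_of_mem_erase hy))
        (c, p.2 + q.2) hsum
      refine ⟨T', h1, h2, ?_, ?_⟩
      · have := Finset.add_sum_erase T (fun q => q.2) hq
        simp only at this h3
        linarith
      · obtain ⟨q', hq', hle⟩ := h4 (c, p.2 + q.2) (Finset.mem_insert_self _ _)
        simp only at hle
        intro x hx
        rcases Finset.mem_insert.mp hx with rfl | hx
        · refine ⟨q', hq', ?_⟩
          have := norm_sub_le_norm_sub_add_norm_sub x.1 c q'.1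
          linarith
        · by_cases hxq : x = q
          · subst hxq
            refine ⟨q', hq', ?_⟩
            have := norm_sub_le_norm_sub_add_norm_sub x.1 c q'.1
            linarith
          · exact h4 x (Finset.mem_insert_of_mem (Finset.mem_erase.mpr ⟨hxq, hx⟩))

lemma merge {ι : Type} (a : ι → ℂ) (r : ι → ℝ) (hr : ∀ i, 0 < r i) (M : Finset ι) :
    ∃ T : Finset (ℂ × ℝ), (∀ q ∈ T, 0 < q.2) ∧
      (∀ p ∈ T, ∀ q ∈ T, p ≠ q → p.2 + q.2 < ‖p.1 - q.1‖) ∧
      ∑ q ∈ T, q.2 ≤ ∑ i ∈ M, r i ∧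
      (∀ i ∈ M, ∃ q ∈ T, ‖a i - q.1‖ + r i ≤ q.2) := by
  classical
  induction M using Finset.induction_on with
  | empty => exact ⟨∅, by simp, by simp, by simp, by simp⟩
  | insert i M hi ih =>
    obtain ⟨T, h1, h2, h3, h4⟩ := ih
    obtain ⟨T', g1, g2, g3, g4⟩ := merge_aux T.card T rfl h1 h2 (a i, r i) (hr i)
    refine ⟨T', g1, g2, ?_, ?_⟩
    · rw [Finset.sum_insert hi]
      simp only at g3
      linarith
    · intro j hj
      rcases Finset.mem_insert.mp hj with rfl | hj
      · obtain ⟨q, hq, hle⟩ := g4 (a j, r j) (Finset.mem_insert_self _ _)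
        exact ⟨q, hq, hle⟩
      · obtain ⟨q, hq, hle⟩ := h4 j hj
        obtain ⟨q', hq', hle'⟩ := g4 q (Finset.mem_insert_of_mem hq)
        refine ⟨q', hq', ?_⟩
        have := norm_sub_le_norm_sub_add_norm_sub (a j) q.1 q'.1
        linarith

lemma exists_t (T : Finset (ℂ × ℝ)) (hpos : ∀ q ∈ T, 0 < q.2) (hsum : ∑ q ∈ T, q.2 ≤ 1 / 8) :
    ∃ t : ℝ, 1 / 2 < t ∧ t < 1 ∧ ∀ q ∈ T, ‖q.1‖ + q.2 < t ∨ t + q.2 < ‖q.1‖ := by
  by_contra hcon
  push Not at hcon
  have hsub : Set.Ioo (1 / 2 : ℝ) 1 ⊆ ⋃ q ∈ T, Set.Icc (‖q.1‖ - q.2) (‖q.1‖ + q.2) := by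
    intro t ht
    obtain ⟨q, hq, h1, h2⟩ := hcon t ht.1 ht.2
    simp only [Set.mem_iUnion]
    exact ⟨q, hq, by constructor <;> linarith⟩
  have h1 := MeasureTheory.measure_mono (μ := MeasureTheory.volume) hsub
  have h2 := MeasureTheory.measure_biUnion_finset_le (μ := MeasureTheory.volume) T
    (fun q : ℂ × ℝ => Set.Icc (‖q.1‖ - q.2) (‖q.1‖ + q.2))
  have h3 := h1.trans h2
  rw [Real.volume_Ioo] at h3
  simp only [Real.volume_Icc] at h3
  rw [← ENNReal.ofReal_sum_of_nonneg (fun q hq => by have := hpos q hq; linarith)] at h3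
  have h4 : ∑ q ∈ T, (‖q.1‖ + q.2 - (‖q.1‖ - q.2)) = 2 * ∑ q ∈ T, q.2 := by
    rw [Finset.mul_sum]; refine Finset.sum_congr rfl fun q _ => by ring
  rw [h4] at h3
  have h5 : (1 : ℝ) - 1 / 2 ≤ 2 * ∑ q ∈ T, q.2 := by
    by_contra hlt
    push Not at hlt
    have := (ENNReal.ofReal_lt_ofReal_iff (by norm_num : (0 : ℝ) < 1 - 1 / 2)).mpr hlt
    exact absurd h3 (not_le.mpr this)
  linarith

/-! ### circle integrals -/

lemma int_conj (c : ℂ) (s : ℝ) (hs : 0 < s) :
    ∮ z in C(c, s), conj z = 2 * Real.pi * Complex.I * (s : ℂ) ^ 2 := by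
  have h1 : Set.EqOn (fun z : ℂ => conj z) (fun z => conj c + (s : ℂ) ^ 2 * (z - c)⁻¹)
      (Metric.sphere c s) := by
    intro z hz
    have hz' : ‖z - c‖ = s := by simpa [dist_eq_norm] using hz
    have hne : z - c ≠ 0 := by
      intro h0; rw [h0, norm_zero] at hz'; linarith
    have h2 : (z - c) * conj (z - c) = (s : ℂ) ^ 2 := by
      rw [Complex.mul_conj, Complex.normSq_eq_norm_sq, hz']; push_cast; ring
    have h3 : conj (z - c) = (s : ℂ) ^ 2 * (z - c)⁻¹ := by
      rw [← h2]; field_simp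
    show conj z = conj c + (s : ℂ) ^ 2 * (z - c)⁻¹
    rw [← h3, map_sub]; ring
  rw [circleIntegral.integral_congr hs.le h1]
  have hci1 : CircleIntegrable (fun _ : ℂ => conj c) c s :=
    continuousOn_const.circleIntegrable hs.le
  have hci2 : CircleIntegrable (fun z : ℂ => (s : ℂ) ^ 2 * (z - c)⁻¹) c s := by
    refine ContinuousOn.circleIntegrable hs.le ?_
    refine continuousOn_const.mul (ContinuousOn.inv₀ (by fun_prop) ?_)
    intro z hz h0
    have hz' : ‖z - c‖ = s := by simpa [dist_eq_norm] using hz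
    rw [h0, norm_zero] at hz'; linarith
  rw [circleIntegral.integral_add hci1 hci2]
  have h2 : (∮ z in C(c, s), (s : ℂ) ^ 2 * (z - c)⁻¹) = (s : ℂ) ^ 2 * ∮ z in C(c, s), (z - c)⁻¹ := by
    exact circleIntegral.integral_smul ((s : ℂ) ^ 2) (fun z => (z - c)⁻¹) c s
  rw [h2, circleIntegral.integral_sub_inv_of_mem_ball (Metric.mem_ball_self hs)]
  have h3 : (∮ z in C(c, s), conj c) = 0 := by
    have h := circleIntegral.integral_sub_zpow_of_ne (n := 0) (by norm_num) c c s
    have h4 := circleIntegral.integral_smul (conj c) (fun z => (z - c) ^ (0 : ℤ)) c s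
    rw [h, smul_zero] at h4
    simpa using h4
  rw [h3]; ring

lemma int_inv_out (b c : ℂ) (s : ℝ) (hs : 0 < s) (hb : s < ‖b - c‖) :
    ∮ z in C(c, s), (z - b)⁻¹ = 0 := by
  refine Complex.circleIntegral_eq_zero_of_differentiable_on_off_countable hs.le
    Set.countable_empty ?_ ?_
  · refine ContinuousOn.inv₀ (by fun_prop) ?_
    intro z hz h0
    have hzb : z = b := sub_eq_zero.mp h0
    subst hzb
    rw [Metric.mem_closedBall, dist_eq_norm] at hz
    linarith
  · intro z hz
    have hz' : z ∈ Metric.ball c s := hz.1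
    have hne : z - b ≠ 0 := by
      intro h0
      have hzb : z = b := sub_eq_zero.mp h0
      subst hzb
      rw [Metric.mem_ball, dist_eq_norm] at hz'
      linarith
    exact ((differentiableAt_id.sub_const b).inv hne)

lemma int_pow (m : ℕ) (c : ℂ) (s : ℝ) (hs : 0 < s) : ∮ z in C(c, s), z ^ m = 0 := by
  refine Complex.circleIntegral_eq_zero_of_differentiable_on_off_countable hs.le
    Set.countable_empty ?_ ?_
  · fun_prop
  · intro z _
    exact (differentiableAt_id.pow m)

lemma int_inv_pow (b : ℂ) (k : ℕ) (c : ℂ) (s : ℝ) : ∮ z in C(c, s), ((z - b)⁻¹) ^ (k + 2) = 0 := by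
  have h := circleIntegral.integral_sub_zpow_of_ne (n := -((k : ℤ) + 2)) (by omega) c b s
  rw [← h]
  congr 1
  funext z
  rw [zpow_neg, inv_pow]
  norm_cast

/-! ### the span of simple fractions -/

/-- linear span of monomials and of powers of simple fractions -/
noncomputable def Sp {ι : Type} (a : ι → ℂ) : Submodule ℂ (ℂ → ℂ) :=
  Submodule.span ℂ (Set.range (fun (m : ℕ) (z : ℂ) => z ^ m) ∪
    Set.range (fun (p : ι × ℕ) (z : ℂ) => ((z - a p.1)⁻¹) ^ (p.2 + 1)))

/-- being represented off the poles by an element of the span -/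
def Rep {ι : Type} (a : ι → ℂ) (G : ℂ → ℂ) : Prop :=
  ∃ S ∈ Sp a, ∀ z, (∀ i, z ≠ a i) → G z = S z

section
variable {ι : Type} {a : ι → ℂ}

lemma Rep.add {G H : ℂ → ℂ} (hG : Rep a G) (hH : Rep a H) : Rep a (G + H) := by
  obtain ⟨S, hS, h1⟩ := hG
  obtain ⟨T, hT, h2⟩ := hH
  exact ⟨S + T, Submodule.add_mem _ hS hT, fun z hz => by
    simp only [Pi.add_apply, h1 z hz, h2 z hz]⟩

lemma Rep.smul {G : ℂ → ℂ} (c : ℂ) (hG : Rep a G) : Rep a (c • G) := by
  obtain ⟨S, hS, h1⟩ := hG
  exact ⟨c • S, Submodule.smul_mem _ _ hS, fun z hz => by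
    simp only [Pi.smul_apply, h1 z hz]⟩

lemma Rep.congr {G H : ℂ → ℂ} (hG : Rep a G) (h : ∀ z, (∀ i, z ≠ a i) → H z = G z) : Rep a H := by
  obtain ⟨S, hS, h1⟩ := hG
  exact ⟨S, hS, fun z hz => (h z hz).trans (h1 z hz)⟩

lemma rep_of_mem {G : ℂ → ℂ} (hG : G ∈ Sp a) : Rep a G := ⟨G, hG, fun _ _ => rfl⟩

lemma mem_mono (m : ℕ) : (fun z : ℂ => z ^ m) ∈ Sp a :=
  Submodule.subset_span (Or.inl ⟨m, rfl⟩)

lemma mem_frac (i : ι) (k : ℕ) : (fun z : ℂ => ((z - a i)⁻¹) ^ (k + 1)) ∈ Sp a :=
  Submodule.subset_span (Or.inr ⟨(i, k), rfl⟩)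

/-- lifting a multiplication statement from the spanning set -/
lemma rep_mul_of_gen (g : ℂ → ℂ) (h1 : ∀ m : ℕ, Rep a (g * fun z => z ^ m))
    (h2 : ∀ i (k : ℕ), Rep a (g * fun z => ((z - a i)⁻¹) ^ (k + 1))) {H : ℂ → ℂ} (hH : Rep a H) :
    Rep a (g * H) := by
  obtain ⟨S, hS, hSH⟩ := hH
  have key : Rep a (g * S) := by
    clear hSH
    unfold Sp at hS
    induction hS using Submodule.span_induction with
    | mem x hx =>
      rcases hx with ⟨m, rfl⟩ | ⟨⟨i, k⟩, rfl⟩
      · exact h1 m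
      · exact h2 i k
    | zero => rw [mul_zero]; exact rep_of_mem (Submodule.zero_mem _)
    | add x y _ _ hx hy => rw [mul_add]; exact hx.add hy
    | smul c x _ hx => rw [mul_smul_comm]; exact hx.smul c
  exact key.congr fun z hz => by simp only [Pi.mul_apply, hSH z hz]

lemma rep_id_mul {H : ℂ → ℂ} (hH : Rep a H) : Rep a ((fun z : ℂ => z) * H) := by
  refine rep_mul_of_gen _ (fun m => ?_) (fun i k => ?_) hH
  · refine (rep_of_mem (mem_mono (m + 1))).congr fun z _ => ?_
    simp only [Pi.mul_apply]; ring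
  · cases k with
    | zero =>
      refine ((rep_of_mem (mem_mono 0)).add ((rep_of_mem (mem_frac i 0)).smul (a i))).congr
        fun z hz => ?_
      have h0 : z - a i ≠ 0 := sub_ne_zero.mpr (hz i)
      simp only [Pi.mul_apply, Pi.add_apply, Pi.smul_apply, smul_eq_mul, zero_add, pow_one,
        pow_zero]
      have h1 : z * (z - a i)⁻¹ = (z - a i) * (z - a i)⁻¹ + a i * (z - a i)⁻¹ := by ring
      rw [h1, mul_inv_cancel₀ h0]
    | succ k =>
      refine ((rep_of_mem (mem_frac i k)).add ((rep_of_mem (mem_frac i (k + 1))).smul (a i))).congr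
        fun z hz => ?_
      have h0 : z - a i ≠ 0 := sub_ne_zero.mpr (hz i)
      simp only [Pi.mul_apply, Pi.add_apply, Pi.smul_apply, smul_eq_mul]
      have h1 : z = (z - a i) + a i := by ring
      set u := z - a i with hu
      rw [h1]
      rw [add_mul]
      congr 1
      rw [pow_succ ((u)⁻¹) (k + 1), mul_comm u, mul_assoc, inv_mul_cancel₀ h0, mul_one]

lemma rep_inv_mul (j : ι) {H : ℂ → ℂ} (hH : Rep a H) :
    Rep a ((fun z : ℂ => (z - a j)⁻¹) * H) := by
  refine rep_mul_of_gen _ (fun m => ?_) (fun i k => ?_) hH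
  · induction m with
    | zero =>
      refine (rep_of_mem (mem_frac j 0)).congr fun z _ => ?_
      simp
    | succ m ih =>
      refine ((rep_of_mem (mem_mono m)).add (ih.smul (a j))).congr fun z hz => ?_
      have h0 : z - a j ≠ 0 := sub_ne_zero.mpr (hz j)
      simp only [Pi.mul_apply, Pi.add_apply, Pi.smul_apply, smul_eq_mul]
      field_simp
      ring
  · by_cases hij : a i = a j
    · refine (rep_of_mem (mem_frac i (k + 1))).congr fun z _ => ?_
      simp only [Pi.mul_apply, ← hij]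
      ring
    · have hc : a i - a j ≠ 0 := sub_ne_zero.mpr hij
      induction k with
      | zero =>
        refine (((rep_of_mem (mem_frac i 0)).add
          ((rep_of_mem (mem_frac j 0)).smul (-1))).smul (a i - a j)⁻¹).congr fun z hz => ?_
        have h0 : z - a j ≠ 0 := sub_ne_zero.mpr (hz j)
        have h1 : z - a i ≠ 0 := sub_ne_zero.mpr (hz i)
        simp only [Pi.mul_apply, Pi.add_apply, Pi.smul_apply, smul_eq_mul, zero_add, pow_one]
        have e : (z - a j)⁻¹ * (z - a i)⁻¹ = (a i - a j)⁻¹ * ((z - a i)⁻¹ - (z - a j)⁻¹) := by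
          field_simp
          ring
        rw [e]; ring
      | succ k ih =>
        refine (((rep_of_mem (mem_frac i (k + 1))).add
          (ih.smul (-1))).smul (a i - a j)⁻¹).congr fun z hz => ?_
        have h0 : z - a j ≠ 0 := sub_ne_zero.mpr (hz j)
        have h1 : z - a i ≠ 0 := sub_ne_zero.mpr (hz i)
        simp only [Pi.mul_apply, Pi.add_apply, Pi.smul_apply, smul_eq_mul]
        have e : (z - a j)⁻¹ * (z - a i)⁻¹ = (a i - a j)⁻¹ * ((z - a i)⁻¹ - (z - a j)⁻¹) := by
          field_simp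
          ring
        have e2 : ((z - a i)⁻¹) ^ (k + 1 + 1) = (z - a i)⁻¹ * ((z - a i)⁻¹) ^ (k + 1) := by ring
        rw [e2]
        linear_combination ((z - a i)⁻¹) ^ (k + 1) * e

/-- the algebra generated by the coordinate and the simple fractions -/
noncomputable def ratAlg {ι : Type} (a : ι → ℂ) : Subalgebra ℂ (ℂ → ℂ) :=
  Algebra.adjoin ℂ (insert (fun z : ℂ => z) (Set.range fun i => fun z : ℂ => (z - a i)⁻¹))

lemma rep_of_ratAlg {G : ℂ → ℂ} (hG : G ∈ ratAlg a) : Rep a G := by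
  have key : ∀ H : ℂ → ℂ, Rep a H → Rep a (G * H) := by
    unfold ratAlg at hG
    induction hG using Algebra.adjoin_induction with
    | mem x hx =>
      intro H hH
      rcases hx with rfl | ⟨i, rfl⟩
      · exact rep_id_mul hH
      · exact rep_inv_mul i hH
    | algebraMap c =>
      intro H hH
      have : (algebraMap ℂ (ℂ → ℂ) c) * H = c • H := by
        rw [Algebra.smul_def]
      rw [this]; exact hH.smul c
    | add x y _ _ hx hy =>
      intro H hH
      rw [add_mul]; exact (hx H hH).add (hy H hH)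
    | mul x y _ _ hx hy =>
      intro H hH
      rw [mul_assoc]; exact hx _ (hy H hH)
  have h1 := key (fun z => z ^ 0) (rep_of_mem (mem_mono 0))
  exact h1.congr fun z _ => by simp

/-! ### integrals of elements of the span -/

/-- a configuration of disjoint discs avoiding the circle of radius `t` and covering some poles -/
structure Cfg (a : ι → ℂ) (F : Finset ι) (t : ℝ) (T : Finset (ℂ × ℝ)) : Prop where
  ht : 0 < t
  hpos : ∀ q ∈ T, 0 < q.2
  hdis : ∀ p ∈ T, ∀ q ∈ T, p ≠ q → p.2 + q.2 < ‖p.1 - q.1‖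
  hcirc : ∀ q ∈ T, ‖q.1‖ + q.2 < t ∨ t + q.2 < ‖q.1‖
  hcov : ∀ i ∈ F, ∃ q ∈ T, ‖a i - q.1‖ < q.2

lemma Cfg.mono {F F' : Finset ι} {t : ℝ} {T : Finset (ℂ × ℝ)} (h : Cfg a F t T) (hF : F' ⊆ F) :
    Cfg a F' t T :=
  ⟨h.ht, h.hpos, h.hdis, h.hcirc, fun i hi => h.hcov i (hF hi)⟩

/-- a pole covered by the configuration is on none of the circles -/
lemma Cfg.off {F : Finset ι} {t : ℝ} {T : Finset (ℂ × ℝ)} (h : Cfg a F t T) {i : ι} (hi : i ∈ F) :
    ‖a i‖ ≠ t ∧ ∀ q ∈ T, ‖a i - q.1‖ ≠ q.2 := by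
  obtain ⟨p, hp, hlt⟩ := h.hcov i hi
  constructor
  · intro h0
    rcases h.hcirc p hp with h1 | h1
    · have := norm_le_norm_add_norm_sub' (a i) p.1
      linarith
    · have := norm_le_norm_add_norm_sub (a i) p.1
      linarith
  · intro q hq h0
    by_cases hpq : p = q
    · subst hpq; linarith
    · have h1 := h.hdis p hp q hq hpq
      have := norm_sub_le_norm_sub_add_norm_sub p.1 (a i) q.1
      rw [norm_sub_rev p.1 (a i)] at this
      linarith

/-- continuity away from finitely many poles together with the integral identity -/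
def Good (a : ι → ℂ) (S : ℂ → ℂ) : Prop :=
  ∃ F : Finset ι, (∀ z, (∀ i ∈ F, z ≠ a i) → ContinuousAt S z) ∧
    ∀ t T, Cfg a F t T → (∮ z in C(0, t), S z) =
      ∑ q ∈ T, if ‖q.1‖ < t then ∮ z in C(q.1, q.2), S z else 0

lemma good_of_sp {S : ℂ → ℂ} (hS : S ∈ Sp a) : Good a S := by
  classical
  unfold Sp at hS
  induction hS using Submodule.span_induction with
  | mem x hx =>
    rcases hx with ⟨m, rfl⟩ | ⟨⟨i, k⟩, rfl⟩
    · refine ⟨∅, fun z _ => (continuous_pow m).continuousAt, fun t T hc => ?_⟩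
      rw [int_pow m 0 t hc.ht]
      symm
      refine Finset.sum_eq_zero fun q hq => ?_
      rw [int_pow m q.1 q.2 (hc.hpos q hq), ite_self]
    · refine ⟨{i}, fun z hz => ?_, fun t T hc => ?_⟩
      · have h0 : z - a i ≠ 0 := sub_ne_zero.mpr (hz i (Finset.mem_singleton_self i))
        exact ((continuousAt_id.sub continuousAt_const).inv₀ h0).pow _
      · cases k with
        | succ k =>
          rw [int_inv_pow (a i) k 0 t]
          symm
          refine Finset.sum_eq_zero fun q hq => ?_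
          rw [int_inv_pow (a i) k q.1 q.2, ite_self]
        | zero =>
          simp only [zero_add, pow_one]
          obtain ⟨p, hp, hlt⟩ := hc.hcov i (Finset.mem_singleton_self i)
          rw [Finset.sum_eq_single p]
          · rw [circleIntegral.integral_sub_inv_of_mem_ball
              (by rw [Metric.mem_ball, dist_eq_norm]; exact hlt : a i ∈ Metric.ball p.1 p.2)]
            rcases hc.hcirc p hp with h1 | h1
            · have hp0 := hc.hpos p hp
              rw [if_pos (by linarith)]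
              refine circleIntegral.integral_sub_inv_of_mem_ball ?_
              rw [Metric.mem_ball, dist_eq_norm, sub_zero]
              have := norm_le_norm_add_norm_sub' (a i) p.1
              linarith
            · have hp0 := hc.hpos p hp
              rw [if_neg (by linarith)]
              refine int_inv_out (a i) 0 t hc.ht ?_
              rw [sub_zero]
              have := norm_le_norm_add_norm_sub (a i) p.1
              linarith
          · intro q hq hqp
            have h1 := hc.hdis q hq p hp hqp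
            rw [int_inv_out (a i) q.1 q.2 (hc.hpos q hq), ite_self]
            have := norm_sub_le_norm_sub_add_norm_sub q.1 (a i) p.1
            rw [norm_sub_rev q.1 (a i)] at this
            linarith
          · intro h; exact absurd hp h
  | zero =>
    refine ⟨∅, fun z _ => continuousAt_const, fun t T hc => ?_⟩
    have h0 : ∀ (c : ℂ) (R : ℝ), (∮ z in C(c, R), (0 : ℂ → ℂ) z) = 0 := fun c R => by
      simp [circleIntegral]
    rw [h0]
    symm
    refine Finset.sum_eq_zero fun q hq => ?_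
    rw [h0, ite_self]
  | add x y _ _ hx hy =>
    obtain ⟨F1, c1, i1⟩ := hx
    obtain ⟨F2, c2, i2⟩ := hy
    refine ⟨F1 ∪ F2, fun z hz => (c1 z fun i hi => hz i (Finset.mem_union_left _ hi)).add
      (c2 z fun i hi => hz i (Finset.mem_union_right _ hi)), fun t T hc => ?_⟩
    have hc1 := hc.mono (Finset.subset_union_left (s₁ := F1) (s₂ := F2))
    have hc2 := hc.mono (Finset.subset_union_right (s₁ := F1) (s₂ := F2))
    have e1 := i1 t T hc1
    have e2 := i2 t T hc2
    have ci : ∀ (f : ℂ → ℂ) (F : Finset ι), (∀ z, (∀ i ∈ F, z ≠ a i) → ContinuousAt f z) →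
        Cfg a F t T → CircleIntegrable f 0 t ∧ ∀ q ∈ T, CircleIntegrable f q.1 q.2 := by
      intro f F hf hcF
      refine ⟨ContinuousOn.circleIntegrable hcF.ht.le ?_, fun q hq =>
        ContinuousOn.circleIntegrable (hcF.hpos q hq).le ?_⟩
      · intro z hz
        refine (hf z fun i hi h0 => ?_).continuousWithinAt
        subst h0
        rw [mem_sphere_zero_iff_norm] at hz
        exact (hcF.off hi).1 hz
      · intro z hz
        refine (hf z fun i hi h0 => ?_).continuousWithinAt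
        subst h0
        rw [mem_sphere_iff_norm] at hz
        exact (hcF.off hi).2 q hq hz
    have k1 := ci x F1 c1 hc1
    have k2 := ci y F2 c2 hc2
    have hadd : (∮ z in C(0, t), (x + y) z) = (∮ z in C(0, t), x z) + ∮ z in C(0, t), y z :=
      circleIntegral.integral_add k1.1 k2.1
    rw [hadd, e1, e2, ← Finset.sum_add_distrib]
    refine Finset.sum_congr rfl fun q hq => ?_
    have hadd' : (∮ z in C(q.1, q.2), (x + y) z)
        = (∮ z in C(q.1, q.2), x z) + ∮ z in C(q.1, q.2), y z :=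
      circleIntegral.integral_add (k1.2 q hq) (k2.2 q hq)
    split_ifs
    · rw [hadd']
    · rw [add_zero]
  | smul c x _ hx =>
    obtain ⟨F, c1, i1⟩ := hx
    refine ⟨F, fun z hz => (c1 z hz).const_smul c, fun t T hc => ?_⟩
    have hsm : ∀ (b : ℂ) (R : ℝ), (∮ z in C(b, R), (c • x) z) = c * ∮ z in C(b, R), x z :=
      fun b R => circleIntegral.integral_smul c x b R
    rw [hsm, i1 t T hc, Finset.mul_sum]
    refine Finset.sum_congr rfl fun q hq => ?_
    rw [hsm, mul_ite, mul_zero]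

/-- The compact set obtained from the closed unit disc by removing the open discs. -/
def Cheese {ι : Type} (a : ι → ℂ) (r : ι → ℝ) : Set ℂ := {z | ‖z‖ ≤ 1 ∧ ∀ i, r i ≤ ‖z - a i‖}

/-- **Nontriviality.** The conjugate is not approximable by rational functions on the cheese. -/
theorem no_conj (r : ι → ℝ) (hr : ∀ i, 0 < r i) (hs : Summable r) (hle : ∑' i, r i ≤ 1 / 8)
    (G : ℂ → ℂ) (hG : G ∈ ratAlg a) : ∃ z ∈ Cheese a r, 1 / 10 < ‖G z - conj z‖ := by
  classical
  by_contra hcon
  push Not at hcon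
  obtain ⟨S, hS, hGS⟩ := rep_of_ratAlg hG
  have hS1 : ∀ z ∈ Cheese a r, ‖S z - conj z‖ ≤ 1 / 10 := by
    intro z hz
    rw [← hGS z]
    · exact hcon z hz
    · intro i h0
      have := hz.2 i
      rw [h0, sub_self, norm_zero] at this
      linarith [hr i]
  obtain ⟨F, hcont, hint⟩ := good_of_sp hS
  -- a finite stage
  set U : Set ℂ := {z | ‖z‖ ≤ 1 ∧ ∀ i ∈ F, r i ≤ ‖z - a i‖} with hU
  have hUne : ∀ z ∈ U, ∀ i ∈ F, z ≠ a i := by
    intro z hz i hi h0
    have := hz.2 i hi
    rw [h0, sub_self, norm_zero] at this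
    linarith [hr i]
  have hUc : IsCompact U := by
    have h1 : U = Metric.closedBall 0 1 ∩ ⋂ i ∈ F, {z | r i ≤ ‖z - a i‖} := by
      ext z; simp [hU]
    rw [h1]
    refine (isCompact_closedBall 0 1).inter_right ?_
    refine isClosed_biInter fun i _ => isClosed_le continuous_const (by fun_prop)
  have hScont : ContinuousOn (fun z => ‖S z - conj z‖) U := by
    intro z hz
    exact ((hcont z (hUne z hz)).sub (Complex.continuous_conj.continuousAt)).norm.continuousWithinAt
  set C : Set ℂ := U ∩ {z | 1 / 5 ≤ ‖S z - conj z‖} with hC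
  have hCc : IsCompact C := by
    have h1 : IsClosed C := by
      have := hScont.preimage_isClosed_of_isClosed hUc.isClosed (isClosed_Ici (a := (1 / 5 : ℝ)))
      exact this
    exact hUc.of_isClosed_subset h1 Set.inter_subset_left
  have hcover : C ⊆ ⋃ i, Metric.ball (a i) (r i) := by
    intro z hz
    by_contra hno
    simp only [Set.mem_iUnion, Metric.mem_ball, dist_eq_norm, not_exists, not_lt] at hno
    have h1 : z ∈ Cheese a r := ⟨hz.1.1, hno⟩
    have h2 := hS1 z h1
    have h3 : 1 / 5 ≤ ‖S z - conj z‖ := hz.2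
    linarith
  obtain ⟨M0, hM0⟩ := hCc.elim_finite_subcover (fun i => Metric.ball (a i) (r i))
    (fun i => Metric.isOpen_ball) hcover
  set M : Finset ι := F ∪ M0 with hM
  have hstage : ∀ z, ‖z‖ ≤ 1 → (∀ i ∈ M, r i ≤ ‖z - a i‖) → ‖S z - conj z‖ ≤ 1 / 5 := by
    intro z h1 h2
    by_contra hlt
    push Not at hlt
    have h3 : z ∈ C := ⟨⟨h1, fun i hi => h2 i (Finset.mem_union_left _ hi)⟩, hlt.le⟩
    have h4 := hM0 h3
    simp only [Set.mem_iUnion, Metric.mem_ball, dist_eq_norm] at h4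
    obtain ⟨i, hi, h5⟩ := h4
    have := h2 i (Finset.mem_union_right _ hi)
    linarith
  obtain ⟨T, hpos, hdis, hsum, hcov⟩ := merge a r hr M
  have hsum' : ∑ q ∈ T, q.2 ≤ 1 / 8 :=
    hsum.trans ((hs.sum_le_tsum M fun i _ => (hr i).le).trans hle)
  obtain ⟨t, ht1, ht2, hcirc⟩ := exists_t T hpos hsum'
  have ht0 : 0 < t := by linarith
  have hcfg : Cfg a F t T := by
    refine ⟨ht0, hpos, hdis, hcirc, fun i hi => ?_⟩
    obtain ⟨q, hq, h1⟩ := hcov i (Finset.mem_union_left _ hi)
    exact ⟨q, hq, by linarith [hr i]⟩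
  have hI := hint t T hcfg
  -- bounds on the circles
  have hbig : ∀ z ∈ Metric.sphere (0 : ℂ) t, ‖S z - conj z‖ ≤ 1 / 5 := by
    intro z hz
    rw [mem_sphere_zero_iff_norm] at hz
    refine hstage z (by linarith) fun i hi => ?_
    obtain ⟨q, hq, h1⟩ := hcov i hi
    rcases hcirc q hq with h2 | h2
    · have e1 := norm_sub_norm_le z (a i)
      have e2 := norm_le_norm_add_norm_sub' (a i) q.1
      linarith
    · have e1 := norm_sub_norm_le (a i) z
      have e2 := norm_le_norm_add_norm_sub (a i) q.1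
      rw [norm_sub_rev] at e1
      linarith
  have hsmall : ∀ q ∈ T, ‖q.1‖ < t → ∀ z ∈ Metric.sphere q.1 q.2, ‖S z - conj z‖ ≤ 1 / 5 := by
    intro q hq hqt z hz
    rw [mem_sphere_iff_norm] at hz
    have hqp := hpos q hq
    refine hstage z ?_ fun i hi => ?_
    · have e1 := norm_le_norm_add_norm_sub' z q.1
      rcases hcirc q hq with h2 | h2
      · linarith
      · linarith
    · obtain ⟨p, hp, h1⟩ := hcov i hi
      by_cases hpq : p = q
      · subst hpq
        have e1 := norm_sub_le_norm_sub_add_norm_sub z (a i) p.1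
        linarith
      · have h2 := hdis p hp q hq hpq
        have e1 := norm_sub_le_norm_sub_add_norm_sub p.1 z q.1
        have e2 := norm_sub_le_norm_sub_add_norm_sub p.1 (a i) z
        rw [norm_sub_rev p.1 (a i), norm_sub_rev (a i) z] at e2
        linarith
  have hint1 : ∀ (c : ℂ) (R : ℝ), 0 < R → (∀ z ∈ Metric.sphere c R, ∀ i ∈ F, z ≠ a i) →
      (∮ z in C(c, R), (S z - conj z)) = (∮ z in C(c, R), S z) -
        2 * Real.pi * Complex.I * (R : ℂ) ^ 2 := by
    intro c R hR hne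
    rw [circleIntegral.integral_sub, int_conj c R hR]
    · refine ContinuousOn.circleIntegrable hR.le fun z hz => (hcont z (hne z hz)).continuousWithinAt
    · exact (Complex.continuous_conj.continuousOn).circleIntegrable hR.le
  have hb0 := circleIntegral.norm_integral_le_of_norm_le_const ht0.le hbig
  rw [hint1 0 t ht0 (fun z hz i hi h0 => by
    rw [mem_sphere_zero_iff_norm, h0] at hz; exact (hcfg.off hi).1 hz)] at hb0
  have hbq : ∀ q ∈ T, ‖if ‖q.1‖ < t then (∮ z in C(q.1, q.2), S z) -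
      2 * Real.pi * Complex.I * (q.2 : ℂ) ^ 2 else 0‖ ≤ 2 * Real.pi * q.2 * (1 / 5) := by
    intro q hq
    have hqp := hpos q hq
    split_ifs with hqt
    · have := circleIntegral.norm_integral_le_of_norm_le_const hqp.le (hsmall q hq hqt)
      rwa [hint1 q.1 q.2 hqp (fun z hz i hi h0 => by
        rw [mem_sphere_iff_norm, h0] at hz; exact (hcfg.off hi).2 q hq hz)] at this
    · rw [norm_zero]; positivity
  -- combine
  have hcomb : (2 * Real.pi * Complex.I * (t : ℂ) ^ 2) -
      ∑ q ∈ T, (if ‖q.1‖ < t then 2 * Real.pi * Complex.I * (q.2 : ℂ) ^ 2 else 0) =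
      (∑ q ∈ T, (if ‖q.1‖ < t then (∮ z in C(q.1, q.2), S z) -
        2 * Real.pi * Complex.I * (q.2 : ℂ) ^ 2 else 0)) -
      ((∮ z in C(0, t), S z) - 2 * Real.pi * Complex.I * (t : ℂ) ^ 2) := by
    rw [hI]
    have : ∑ q ∈ T, (if ‖q.1‖ < t then (∮ z in C(q.1, q.2), S z) -
        2 * Real.pi * Complex.I * (q.2 : ℂ) ^ 2 else 0) =
        (∑ q ∈ T, if ‖q.1‖ < t then ∮ z in C(q.1, q.2), S z else 0) -
        ∑ q ∈ T, (if ‖q.1‖ < t then 2 * Real.pi * Complex.I * (q.2 : ℂ) ^ 2 else 0) := by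
      rw [← Finset.sum_sub_distrib]
      refine Finset.sum_congr rfl fun q _ => ?_
      split_ifs <;> simp
    rw [this]; ring
  have hlhs : ‖(2 * Real.pi * Complex.I * (t : ℂ) ^ 2) -
      ∑ q ∈ T, (if ‖q.1‖ < t then 2 * Real.pi * Complex.I * (q.2 : ℂ) ^ 2 else 0)‖ ≥
      2 * Real.pi * (t ^ 2 - ∑ q ∈ T, q.2 ^ 2) := by
    have e1 : ‖(2 * Real.pi * Complex.I * (t : ℂ) ^ 2)‖ = 2 * Real.pi * t ^ 2 := by
      simp [abs_of_pos Real.pi_pos]
    have e2 : ‖∑ q ∈ T, (if ‖q.1‖ < t then 2 * Real.pi * Complex.I * (q.2 : ℂ) ^ 2 else 0)‖ ≤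
        2 * Real.pi * ∑ q ∈ T, q.2 ^ 2 := by
      refine (norm_sum_le _ _).trans ?_
      rw [Finset.mul_sum]
      refine Finset.sum_le_sum fun q _ => ?_
      split_ifs
      · simp [abs_of_pos Real.pi_pos]
      · rw [norm_zero]; positivity
    have e3 := norm_sub_norm_le (2 * Real.pi * Complex.I * (t : ℂ) ^ 2)
      (∑ q ∈ T, (if ‖q.1‖ < t then 2 * Real.pi * Complex.I * (q.2 : ℂ) ^ 2 else 0))
    rw [ge_iff_le, mul_sub]
    linarith
  have hrhs : ‖(∑ q ∈ T, (if ‖q.1‖ < t then (∮ z in C(q.1, q.2), S z) -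
        2 * Real.pi * Complex.I * (q.2 : ℂ) ^ 2 else 0)) -
      ((∮ z in C(0, t), S z) - 2 * Real.pi * Complex.I * (t : ℂ) ^ 2)‖ ≤
      2 * Real.pi * (1 / 5) * (∑ q ∈ T, q.2) + 2 * Real.pi * t * (1 / 5) := by
    refine (norm_sub_le _ _).trans ?_
    refine add_le_add ?_ hb0
    refine (norm_sum_le _ _).trans ?_
    rw [Finset.mul_sum]
    refine Finset.sum_le_sum fun q hq => ?_
    refine (hbq q hq).trans (le_of_eq ?_)
    ring
  rw [hcomb] at hlhs
  have hfin := (ge_iff_le.mp hlhs).trans hrhs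
  have hsq : ∑ q ∈ T, q.2 ^ 2 ≤ 1 / 64 := by
    have h1 : ∀ q ∈ T, q.2 ^ 2 ≤ (1 / 8) * q.2 := by
      intro q hq
      have h2 : q.2 ≤ ∑ q ∈ T, q.2 :=
        Finset.single_le_sum (f := fun q : ℂ × ℝ => q.2) (fun x hx => (hpos x hx).le) hq
      have h3 := hpos q hq
      nlinarith
    calc ∑ q ∈ T, q.2 ^ 2 ≤ ∑ q ∈ T, (1 / 8) * q.2 := Finset.sum_le_sum h1
      _ = (1 / 8) * ∑ q ∈ T, q.2 := by rw [Finset.mul_sum]
      _ ≤ 1 / 64 := by linarith
  have hpi := Real.pi_pos
  have : t ^ 2 - ∑ q ∈ T, q.2 ^ 2 ≤ (1 / 5) * (∑ q ∈ T, q.2) + t * (1 / 5) := by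
    have h1 : 2 * Real.pi * (t ^ 2 - ∑ q ∈ T, q.2 ^ 2) ≤
        2 * Real.pi * ((1 / 5) * (∑ q ∈ T, q.2) + t * (1 / 5)) := by
      refine hfin.trans (le_of_eq ?_)
      ring
    exact le_of_mul_le_mul_left h1 (by positivity)
  nlinarith

end

end Pool.Agent.H896R3
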