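import Mathlib

set_option autoImplicit false

namespace Pool.Agent.H896R3

open Polynomial

/-- If `u` keeps distance `δ / N` from all `N`-th roots of unity, then `1 - u ^ N` is not small. -/
lemma root_lower (N : ℕ) (hN : 0 < N) (u : ℂ) (δ : ℝ) (hδ1 : δ ≤ 1)
    (h : ∀ ω : ℂ, ω ^ N = 1 → δ / N ≤ ‖u - ω‖) : δ / 3 ≤ ‖1 - u ^ N‖ := by
  by_contra hlt
  rw [not_le] at hlt
  have hN' : (0 : ℝ) < N := by exact_mod_cast hN
  set x : ℂ := u ^ N - 1 with hx
  have hxn : ‖x‖ < δ / 3 := by rw [hx, norm_sub_rev]; exact hlt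
  have hx2 : ‖x‖ ≤ 1 / 2 := by linarith
  have hL := Complex.norm_log_one_add_half_le_self hx2
  have hv : (1 : ℂ) + x ≠ 0 := by
    intro h0
    have : x = -1 := by linear_combination h0
    rw [this, norm_neg, norm_one] at hx2
    norm_num at hx2
  set L : ℂ := Complex.log (1 + x) with hLdef
  have hLexp : Complex.exp L = 1 + x := Complex.exp_log hv
  have hNc : (N : ℂ) ≠ 0 := by exact_mod_cast hN.ne'
  set e : ℂ := Complex.exp (L / N) with he
  have heN : e ^ N = 1 + x := by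
    rw [he, ← Complex.exp_nat_mul, mul_div_cancel₀ _ hNc, hLexp]
  have he0 : e ≠ 0 := Complex.exp_ne_zero _
  have huN : u ^ N = 1 + x := by rw [hx]; ring
  have hω : (u / e) ^ N = 1 := by
    rw [div_pow, heN, huN, div_self hv]
  have hωn : ‖u / e‖ = 1 := by
    have h1 : ‖u / e‖ ^ N = 1 := by rw [← norm_pow, hω, norm_one]
    exact (pow_eq_one_iff_of_nonneg (norm_nonneg _) hN.ne').mp h1
  have hLn : ‖L / N‖ = ‖L‖ / N := by
    rw [norm_div, Complex.norm_natCast]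
  have hLle : ‖L‖ ≤ 1 := by linarith
  have hN1 : (1 : ℝ) ≤ N := by exact_mod_cast hN
  have hLN1 : ‖L / N‖ ≤ 1 := by
    rw [hLn, div_le_one hN']; linarith
  have hexp := Complex.norm_exp_sub_one_le hLN1
  have key := h (u / e) hω
  have hdiff : u - u / e = (u / e) * (e - 1) := by
    field_simp
  rw [hdiff, norm_mul, hωn, one_mul] at key
  rw [hLn] at hexp
  have : δ / N ≤ 2 * (‖L‖ / N) := key.trans hexp
  rw [← mul_div_assoc, div_le_div_iff_of_pos_right hN'] at this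
  linarith

/-- radii of the circles carrying poles -/
noncomputable def rho (j : ℕ) : ℝ := ((j : ℝ) + 1) / ((j : ℝ) + 2)

lemma rho_pos (j : ℕ) : 0 < rho j := by unfold rho; positivity

lemma rho_lt_one (j : ℕ) : rho j < 1 := by
  unfold rho; rw [div_lt_one (by positivity)]; linarith

lemma rho_lt_succ (j : ℕ) : rho j < rho (j + 1) := by
  unfold rho
  push_cast
  rw [div_lt_div_iff₀ (by positivity) (by positivity)]
  nlinarith [(Nat.cast_nonneg j : (0 : ℝ) ≤ j)]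

lemma rho_mono : Monotone rho := monotone_nat_of_le_succ fun j => (rho_lt_succ j).le

lemma exists_rho_ge (t : ℝ) (ht : t < 1) : ∃ m, t ≤ rho m := by
  obtain ⟨m, hm⟩ := exists_nat_gt (1 / (1 - t))
  refine ⟨m, ?_⟩
  have h1 : 0 < 1 - t := by linarith
  have h2 : 1 < (1 - t) * m := by
    rw [div_lt_iff₀ h1] at hm; linarith
  unfold rho
  rw [le_div_iff₀ (by positivity)]
  nlinarith

lemma exists_N (η : ℕ → ℝ) (hη : ∀ j, 0 < η j) :
    ∃ N : ℕ → ℕ, ∀ j, 0 < N j ∧ 65 ≤ (rho (j + 1) / rho j) ^ (N j) ∧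
      (∀ i, i + 1 = j → (rho i / rho j) ^ (N j) ≤ η j) := by
  have : ∀ j, ∃ N : ℕ, 0 < N ∧ 65 ≤ (rho (j + 1) / rho j) ^ N ∧
      (∀ i, i + 1 = j → (rho i / rho j) ^ N ≤ η j) := by
    intro j
    have h1 : 1 < rho (j + 1) / rho j := by
      rw [one_lt_div (rho_pos j)]; exact rho_lt_succ j
    have t1 : Filter.Tendsto (fun N : ℕ => (rho (j + 1) / rho j) ^ N) Filter.atTop Filter.atTop :=
      tendsto_pow_atTop_atTop_of_one_lt h1
    have e1 := t1.eventually_ge_atTop 65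
    have e2 : ∀ᶠ N : ℕ in Filter.atTop, ∀ i, i + 1 = j → (rho i / rho j) ^ N ≤ η j := by
      rcases j with _ | i
      · exact Filter.Eventually.of_forall fun N i hi => by omega
      · have h2 : rho i / rho (i + 1) < 1 := by
          rw [div_lt_one (rho_pos _)]; exact rho_lt_succ i
        have h3 : 0 ≤ rho i / rho (i + 1) := div_nonneg (rho_pos _).le (rho_pos _).le
        have t2 := tendsto_pow_atTop_nhds_zero_of_lt_one h3 h2
        have e3 := t2.eventually (Iio_mem_nhds (hη (i + 1)))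
        filter_upwards [e3] with N hN i' hi'
        have : i' = i := by omega
        subst this
        exact le_of_lt hN
    have e4 := Filter.eventually_gt_atTop (0 : ℕ)
    obtain ⟨N, hN⟩ := (e1.and (e2.and e4)).exists
    exact ⟨N, hN.2.2, hN.1, hN.2.1⟩
  choose N hN using this
  exact ⟨N, hN⟩

/-- the algebra of functions generated by the simple fractions with poles `a i` -/
noncomputable def poleAlg {ι : Type} (a : ι → ℂ) : Subalgebra ℂ (ℂ → ℂ) :=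
  Algebra.adjoin ℂ (Set.range fun i => fun z : ℂ => (z - a i)⁻¹)

lemma factor_mem {ι : Type} (a : ι → ℂ) (N : ℕ) (hN : 0 < N) (ρ : ℝ) (hρ : 0 < ρ)
    (h : ∀ ω : ℂ, ω ^ N = 1 → ∃ i, a i = ρ * ω) :
    (fun z : ℂ => (1 - (z / ρ) ^ N)⁻¹) ∈ poleAlg a := by
  classical
  have hρc : (ρ : ℂ) ≠ 0 := by exact_mod_cast hρ.ne'
  have hprim := Complex.isPrimitiveRoot_exp N hN.ne'
  have hfac := X_pow_sub_one_eq_prod hN hprim
  have heq : (fun z : ℂ => (1 - (z / ρ) ^ N)⁻¹)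
      = (fun _ : ℂ => (-((ρ : ℂ) ^ N))) * ∏ ω ∈ nthRootsFinset N (1 : ℂ),
          (fun z : ℂ => (z - ρ * ω)⁻¹) := by
    funext z
    have h1 := congrArg (fun p => Polynomial.eval (z / ρ) p) hfac
    simp only [eval_sub, eval_pow, eval_X, eval_one, eval_prod, eval_C] at h1
    simp only [Pi.mul_apply, Finset.prod_apply]
    have h2 : (1 - (z / ρ) ^ N) = -∏ ω ∈ nthRootsFinset N (1 : ℂ), (z / ρ - ω) := by
      rw [← h1]; ring
    rw [h2]
    have h3 : ∏ ω ∈ nthRootsFinset N (1 : ℂ), (z / ρ - ω)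
        = (∏ ω ∈ nthRootsFinset N (1 : ℂ), (z - ρ * ω)) / (ρ : ℂ) ^ N := by
      have hcard : (nthRootsFinset N (1 : ℂ)).card = N := hprim.card_nthRootsFinset
      have hpow : (ρ : ℂ) ^ N = ∏ _ω ∈ nthRootsFinset N (1 : ℂ), (ρ : ℂ) := by
        rw [Finset.prod_const, hcard]
      rw [eq_div_iff (pow_ne_zero _ hρc), hpow, ← Finset.prod_mul_distrib]
      refine Finset.prod_congr rfl fun ω _ => ?_
      field_simp
    rw [h3, Finset.prod_inv_distrib]
    by_cases h0 : ∏ ω ∈ nthRootsFinset N (1 : ℂ), (z - ρ * ω) = 0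
    · rw [h0]; simp
    · field_simp
  rw [heq]
  refine Subalgebra.mul_mem _ ?_ ?_
  · exact Subalgebra.algebraMap_mem (poleAlg a) (-((ρ : ℂ) ^ N))
  · refine Subalgebra.prod_mem _ fun ω hω => ?_
    have hω' : ω ^ N = 1 := by
      rwa [mem_nthRootsFinset hN] at hω
    obtain ⟨i, hi⟩ := h ω hω'
    refine Algebra.subset_adjoin ⟨i, ?_⟩
    funext z
    simp [hi]

/-- Data of the unit-disc construction. -/
structure Dat where
  ε : ℝ
  hε : 0 < ε
  hε1 : ε ≤ 1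
  N : ℕ → ℕ
  hN : ∀ j, 0 < N j
  hbig : ∀ j, 65 ≤ (rho (j + 1) / rho j) ^ (N j)
  hsmall : ∀ i, (rho i / rho (i + 1)) ^ (N (i + 1)) ≤
    (1 / 2) ^ (i + 2) * ∏ l ∈ Finset.range (i + 1), (ε / 2 / 2 ^ l / 3)

namespace Dat

variable (D : Dat)

noncomputable def eps (j : ℕ) : ℝ := D.ε / 2 / 2 ^ j

lemma eps_pos (j : ℕ) : 0 < D.eps j := by
  have := D.hε
  unfold eps; positivity

lemma eps_le_one (j : ℕ) : D.eps j ≤ 1 := by
  have h1 := D.hε
  have h2 := D.hε1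
  unfold eps
  have h3 : (1 : ℝ) ≤ 2 ^ j := one_le_pow₀ (by norm_num)
  rw [div_div, div_le_one (by positivity)]
  linarith

/-- index set of the poles -/
def I : Type := Σ j : ℕ, {ω : ℂ // ω ∈ nthRootsFinset (D.N j) (1 : ℂ)}

instance : Countable D.I := by unfold I; infer_instance

noncomputable def pole : D.I → ℂ := fun i => rho i.1 * i.2.1

noncomputable def rad : D.I → ℝ := fun i => D.eps i.1 / D.N i.1

lemma rad_pos (i : D.I) : 0 < D.rad i := by
  have h1 := D.eps_pos i.1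
  have h2 := D.hN i.1
  have : (0 : ℝ) < D.N i.1 := by exact_mod_cast h2
  unfold rad; positivity

/-- outside of the discs -/
def Out : Set ℂ := {z | ∀ i, D.rad i ≤ ‖z - D.pole i‖}

noncomputable def w (j : ℕ) (z : ℂ) : ℂ := (z / rho j) ^ (D.N j)

noncomputable def h (j : ℕ) (z : ℂ) : ℂ := (1 - D.w j z)⁻¹

noncomputable def P (n : ℕ) (z : ℂ) : ℂ := ∏ j ∈ Finset.range n, D.h j z

lemma low {z : ℂ} (hz : z ∈ D.Out) (j : ℕ) : D.eps j / 3 ≤ ‖1 - D.w j z‖ := by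
  unfold w
  refine root_lower (D.N j) (D.hN j) _ _ (D.eps_le_one j) fun ω hω => ?_
  have hmem : ω ∈ nthRootsFinset (D.N j) (1 : ℂ) := by
    rw [mem_nthRootsFinset (D.hN j)]; exact hω
  have h1 := hz ⟨j, ⟨ω, hmem⟩⟩
  simp only [rad, pole] at h1
  have hρ := rho_pos j
  have hρc : (rho j : ℂ) ≠ 0 := by exact_mod_cast hρ.ne'
  have h2 : z / rho j - ω = (z - rho j * ω) / rho j := by field_simp
  rw [h2, norm_div, Complex.norm_real, Real.norm_of_nonneg hρ.le, le_div_iff₀ hρ]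
  have h3 : 0 ≤ D.eps j / D.N j := div_nonneg (D.eps_pos j).le (Nat.cast_nonneg _)
  calc D.eps j / D.N j * rho j ≤ D.eps j / D.N j * 1 :=
        mul_le_mul_of_nonneg_left (rho_lt_one j).le h3
    _ = D.eps j / D.N j := mul_one _
    _ ≤ _ := h1

lemma one_sub_w_ne {z : ℂ} (hz : z ∈ D.Out) (j : ℕ) : 1 - D.w j z ≠ 0 := by
  have h1 := D.low hz j
  have h2 := D.eps_pos j
  intro h0
  rw [h0, norm_zero] at h1
  linarith

lemma h_ne {z : ℂ} (hz : z ∈ D.Out) (j : ℕ) : D.h j z ≠ 0 := inv_ne_zero (D.one_sub_w_ne hz j)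

lemma P_ne {z : ℂ} (hz : z ∈ D.Out) (n : ℕ) : D.P n z ≠ 0 :=
  Finset.prod_ne_zero_iff.mpr fun j _ => D.h_ne hz j

lemma h_le {z : ℂ} (hz : z ∈ D.Out) (j : ℕ) : ‖D.h j z‖ ≤ (D.eps j / 3)⁻¹ := by
  unfold h
  rw [norm_inv]
  exact inv_anti₀ (by have := D.eps_pos j; positivity) (D.low hz j)

lemma norm_w (j : ℕ) (z : ℂ) : ‖D.w j z‖ = (‖z‖ / rho j) ^ (D.N j) := by
  unfold w
  rw [norm_pow, norm_div, Complex.norm_real, Real.norm_of_nonneg (rho_pos j).le]

lemma w_big {z : ℂ} (j n : ℕ) (hj : j < n) (hz : rho n ≤ ‖z‖) : 65 ≤ ‖D.w j z‖ := by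
  rw [norm_w]
  refine (D.hbig j).trans ?_
  have h1 := rho_pos j
  have h2 := rho_pos (j + 1)
  have h3 : rho (j + 1) ≤ rho n := rho_mono hj
  gcongr
  exact h3.trans hz

lemma h_small {z : ℂ} (j n : ℕ) (hj : j < n) (hz : rho n ≤ ‖z‖) : ‖D.h j z‖ ≤ 1 / 64 := by
  have h1 := D.w_big j n hj hz
  unfold h
  rw [norm_inv]
  have h2 : 64 ≤ ‖1 - D.w j z‖ := by
    have := norm_sub_norm_le (D.w j z) 1
    rw [norm_one] at this
    rw [norm_sub_rev]
    linarith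
  rw [one_div]
  exact inv_anti₀ (by norm_num) h2

lemma P_small {z : ℂ} (n : ℕ) (hz : rho n ≤ ‖z‖) : ‖D.P n z‖ ≤ (1 / 64) ^ n := by
  unfold P
  rw [norm_prod]
  calc ∏ j ∈ Finset.range n, ‖D.h j z‖ ≤ ∏ _j ∈ Finset.range n, (1 / 64 : ℝ) :=
        Finset.prod_le_prod (fun _ _ => norm_nonneg _)
          fun j hj => D.h_small j n (Finset.mem_range.mp hj) hz
    _ = (1 / 64) ^ n := by simp

lemma P_le {z : ℂ} (hz : z ∈ D.Out) (n : ℕ) :
    ‖D.P n z‖ ≤ ∏ l ∈ Finset.range n, (D.eps l / 3)⁻¹ := by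
  unfold P
  rw [norm_prod]
  exact Finset.prod_le_prod (fun _ _ => norm_nonneg _) fun j _ => D.h_le hz j

lemma eta_le (i : ℕ) :
    (1 / 2 : ℝ) ^ (i + 2) * ∏ l ∈ Finset.range (i + 1), (D.ε / 2 / 2 ^ l / 3)
      ≤ (1 / 2) ^ (i + 2) := by
  have h1 : ∏ l ∈ Finset.range (i + 1), (D.ε / 2 / 2 ^ l / 3) ≤ 1 := by
    refine Finset.prod_le_one (fun l _ => ?_) fun l _ => ?_
    · have := D.eps_pos l; unfold eps at this; positivity
    · have := D.eps_le_one l; unfold eps at this; linarith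
  have h2 : (0 : ℝ) ≤ (1 / 2) ^ (i + 2) := by positivity
  nlinarith

lemma w_tiny {z : ℂ} (i : ℕ) (hz : ‖z‖ ≤ rho i) :
    ‖D.w (i + 1) z‖ ≤
      (1 / 2) ^ (i + 2) * ∏ l ∈ Finset.range (i + 1), (D.ε / 2 / 2 ^ l / 3) := by
  rw [norm_w]
  refine le_trans ?_ (D.hsmall i)
  have h2 := rho_pos (i + 1)
  gcongr

lemma h_sub_one {z : ℂ} (hz : z ∈ D.Out) (j : ℕ) : D.h j z - 1 = D.w j z * D.h j z := by
  have h1 := D.one_sub_w_ne hz j
  unfold h
  field_simp
  ring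

lemma step {z : ℂ} (hz : z ∈ D.Out) (n : ℕ) :
    ‖D.P (n + 2) z - D.P (n + 1) z‖ ≤ (96 / D.ε ^ 2 + 1) * (1 / 2) ^ n := by
  have hε := D.hε
  have hP : D.P (n + 2) z - D.P (n + 1) z = D.P (n + 1) z * (D.h (n + 1) z - 1) := by
    have : D.P (n + 2) z = D.P (n + 1) z * D.h (n + 1) z := by
      unfold P; rw [Finset.prod_range_succ]
    rw [this]; ring
  rw [hP, norm_mul]
  rcases le_total ‖z‖ (rho n) with hle | hge
  · have h1 := D.w_tiny n hle
    have h2 := D.P_le hz (n + 1)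
    have h3 : ‖D.w (n + 1) z‖ ≤ 1 / 2 := by
      refine (h1.trans (D.eta_le n)).trans ?_
      calc (1 / 2 : ℝ) ^ (n + 2) ≤ (1 / 2) ^ 1 :=
            pow_le_pow_of_le_one (by norm_num) (by norm_num) (by omega)
        _ = 1 / 2 := pow_one _
    have h4 : ‖D.h (n + 1) z‖ ≤ 2 := by
      unfold h
      rw [norm_inv]
      have : 1 / 2 ≤ ‖1 - D.w (n + 1) z‖ := by
        have := norm_sub_norm_le (1 : ℂ) (D.w (n + 1) z)
        rw [norm_one] at this
        linarith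
      calc ‖1 - D.w (n + 1) z‖⁻¹ ≤ (1 / 2 : ℝ)⁻¹ := inv_anti₀ (by norm_num) this
        _ = 2 := by norm_num
    rw [D.h_sub_one hz, norm_mul]
    have h5 : ∏ l ∈ Finset.range (n + 1), (D.eps l / 3)⁻¹
        = (∏ l ∈ Finset.range (n + 1), (D.ε / 2 / 2 ^ l / 3))⁻¹ := by
      rw [Finset.prod_inv_distrib]; rfl
    have h6 : 0 < ∏ l ∈ Finset.range (n + 1), (D.ε / 2 / 2 ^ l / 3) :=
      Finset.prod_pos fun l _ => by positivity
    rw [h5] at h2
    set Q := ∏ l ∈ Finset.range (n + 1), (D.ε / 2 / 2 ^ l / 3) with hQ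
    calc ‖D.P (n + 1) z‖ * (‖D.w (n + 1) z‖ * ‖D.h (n + 1) z‖)
        ≤ Q⁻¹ * (((1 / 2) ^ (n + 2) * Q) * 2) := by
          gcongr
      _ = (1 / 2) ^ (n + 1) := by
          field_simp
          ring
      _ ≤ (1 / 2) ^ n := pow_le_pow_of_le_one (by norm_num) (by norm_num) (by omega)
      _ ≤ (96 / D.ε ^ 2 + 1) * (1 / 2) ^ n := by
          have : 0 ≤ 96 / D.ε ^ 2 := by positivity
          have h7 : (0 : ℝ) ≤ (1 / 2) ^ n := by positivity
          nlinarith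
  · have h1 := D.P_small n hge
    have h2 : D.P (n + 1) z = D.P n z * D.h n z := by
      unfold P; rw [Finset.prod_range_succ]
    have h3 := D.h_le hz n
    have h4 := D.h_le hz (n + 1)
    have h5 : ‖D.h (n + 1) z - 1‖ ≤ 4 / D.eps (n + 1) := by
      have h6 : ‖D.h (n + 1) z - 1‖ ≤ ‖D.h (n + 1) z‖ + 1 := by
        have := norm_sub_le (D.h (n + 1) z) 1
        rwa [norm_one] at this
      have h7 := D.eps_le_one (n + 1)
      have h8 := D.eps_pos (n + 1)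
      have h9 : (D.eps (n + 1) / 3)⁻¹ = 3 / D.eps (n + 1) := by
        rw [inv_div]
      rw [h9] at h4
      have h10 : 1 ≤ 1 / D.eps (n + 1) := by
        rw [le_div_iff₀ h8]; linarith
      have h11 : 4 / D.eps (n + 1) = 3 / D.eps (n + 1) + 1 / D.eps (n + 1) := by ring
      linarith
    have h9 : (D.eps n / 3)⁻¹ = 3 / D.eps n := by
      rw [inv_div]
    rw [h9] at h3
    have h8 := D.eps_pos (n + 1)
    have h8' := D.eps_pos n
    rw [h2, norm_mul]
    calc ‖D.P n z‖ * ‖D.h n z‖ * ‖D.h (n + 1) z - 1‖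
        ≤ (1 / 64) ^ n * (3 / D.eps n) * (4 / D.eps (n + 1)) := by
          gcongr
      _ = 96 / D.ε ^ 2 * (1 / 16) ^ n := by
          unfold eps
          have e1 : (1 / 64 : ℝ) ^ n = (1 / 16) ^ n * (1 / 2) ^ n * (1 / 2) ^ n := by
            rw [← mul_pow, ← mul_pow]; norm_num
          rw [e1]
          have e2 : (1 / 2 : ℝ) ^ n = ((2 : ℝ) ^ n)⁻¹ := by
            rw [one_div, inv_pow]
          rw [e2, pow_succ]
          field_simp
          ring
      _ ≤ 96 / D.ε ^ 2 * (1 / 2) ^ n := by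
          have : (0 : ℝ) ≤ 96 / D.ε ^ 2 := by positivity
          gcongr
          norm_num
      _ ≤ (96 / D.ε ^ 2 + 1) * (1 / 2) ^ n := by
          have h7 : (0 : ℝ) ≤ (1 / 2) ^ n := by positivity
          nlinarith

lemma exists_lim {z : ℂ} (hz : z ∈ D.Out) :
    ∃ l : ℂ, ∀ n, ‖D.P (n + 1) z - l‖ ≤ (96 / D.ε ^ 2 + 1) * 2 * (1 / 2) ^ n := by
  set C : ℝ := 96 / D.ε ^ 2 + 1 with hC
  have hstep : ∀ n, dist (D.P (n + 1) z) (D.P (n + 1 + 1) z) ≤ (C * 2) / 2 / 2 ^ n := by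
    intro n
    rw [dist_comm, dist_eq_norm]
    refine (D.step hz n).trans (le_of_eq ?_)
    rw [one_div, inv_pow, hC]
    field_simp
  have hcau : CauchySeq fun n => D.P (n + 1) z := cauchySeq_of_le_geometric_two hstep
  obtain ⟨l, hl⟩ := cauchySeq_tendsto_of_complete hcau
  refine ⟨l, fun n => ?_⟩
  have := dist_le_of_le_geometric_two_of_tendsto hstep hl n
  rw [dist_eq_norm] at this
  refine this.trans (le_of_eq ?_)
  rw [one_div, inv_pow, div_eq_mul_inv]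

open Classical in
/-- the limit function -/
noncomputable def f (z : ℂ) : ℂ :=
  if hz : z ∈ D.Out then (D.exists_lim hz).choose else 0

lemma f_spec {z : ℂ} (hz : z ∈ D.Out) (n : ℕ) :
    ‖D.P (n + 1) z - D.f z‖ ≤ (96 / D.ε ^ 2 + 1) * 2 * (1 / 2) ^ n := by
  have : D.f z = (D.exists_lim hz).choose := by
    unfold f; rw [dif_pos hz]
  rw [this]
  exact (D.exists_lim hz).choose_spec n

lemma tendsto_P {z : ℂ} (hz : z ∈ D.Out) :
    Filter.Tendsto (fun n => D.P (n + 1) z) Filter.atTop (nhds (D.f z)) := by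
  rw [tendsto_iff_norm_sub_tendsto_zero]
  have h1 : Filter.Tendsto (fun n : ℕ => (96 / D.ε ^ 2 + 1) * 2 * (1 / 2 : ℝ) ^ n)
      Filter.atTop (nhds ((96 / D.ε ^ 2 + 1) * 2 * 0)) :=
    (tendsto_pow_atTop_nhds_zero_of_lt_one (by norm_num) (by norm_num)).const_mul _
  rw [mul_zero] at h1
  exact squeeze_zero (fun n => norm_nonneg _) (fun n => D.f_spec hz n) h1

lemma P_mem (n : ℕ) : D.P n ∈ poleAlg D.pole := by
  have : D.P n = ∏ j ∈ Finset.range n, D.h j := by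
    funext z; simp [P]
  rw [this]
  refine Subalgebra.prod_mem _ fun j _ => ?_
  refine factor_mem D.pole (D.N j) (D.hN j) (rho j) (rho_pos j) fun ω hω => ?_
  refine ⟨⟨j, ⟨ω, ?_⟩⟩, rfl⟩
  rw [mem_nthRootsFinset (D.hN j)]; exact hω

lemma approx (δ : ℝ) (hδ : 0 < δ) : ∃ g ∈ poleAlg D.pole, ∀ z ∈ D.Out, ‖g z - D.f z‖ ≤ δ := by
  have h1 : Filter.Tendsto (fun n : ℕ => (96 / D.ε ^ 2 + 1) * 2 * (1 / 2 : ℝ) ^ n)
      Filter.atTop (nhds ((96 / D.ε ^ 2 + 1) * 2 * 0)) :=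
    (tendsto_pow_atTop_nhds_zero_of_lt_one (by norm_num) (by norm_num)).const_mul _
  rw [mul_zero] at h1
  obtain ⟨n, hn⟩ := (h1.eventually (Iio_mem_nhds hδ)).exists
  exact ⟨D.P (n + 1), D.P_mem _, fun z hz => (D.f_spec hz n).trans (le_of_lt hn)⟩

lemma f_zero {z : ℂ} (hz : z ∈ D.Out) (h1 : 1 ≤ ‖z‖) : D.f z = 0 := by
  have h2 := D.tendsto_P hz
  have h3 : Filter.Tendsto (fun n => D.P (n + 1) z) Filter.atTop (nhds 0) := by
    rw [tendsto_zero_iff_norm_tendsto_zero]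
    have h4 : Filter.Tendsto (fun n : ℕ => (1 / 64 : ℝ) ^ (n + 1)) Filter.atTop (nhds 0) :=
      (tendsto_pow_atTop_nhds_zero_of_lt_one (by norm_num) (by norm_num)).comp
        (Filter.tendsto_add_atTop_nat 1)
    exact squeeze_zero (fun n => norm_nonneg _)
      (fun n => D.P_small (n + 1) ((rho_lt_one _).le.trans h1)) h4
  exact tendsto_nhds_unique h2 h3

lemma P_lower {z : ℂ} (m : ℕ) (hm : ‖z‖ ≤ rho m) (k : ℕ) :
    ‖D.P (m + 1) z‖ * (1 / 2 + (1 / 2) ^ (k + 1)) ≤ ‖D.P (m + 1 + k) z‖ := by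
  induction k with
  | zero => norm_num
  | succ k ih =>
    have h2 : D.P (m + 1 + (k + 1)) z = D.P (m + 1 + k) z * D.h (m + k + 1) z := by
      unfold P
      rw [show m + 1 + (k + 1) = (m + 1 + k) + 1 by ring, Finset.prod_range_succ,
        show m + 1 + k = m + k + 1 by ring]
    rw [h2, norm_mul]
    have h3 : ‖z‖ ≤ rho (m + k) := hm.trans (rho_mono (by omega))
    have h4 : ‖D.w (m + k + 1) z‖ ≤ (1 / 2) ^ (k + 2) := by
      refine ((D.w_tiny (m + k) h3).trans (D.eta_le (m + k))).trans ?_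
      exact pow_le_pow_of_le_one (by norm_num) (by norm_num) (by omega)
    have h5 : (1 / 2 : ℝ) ^ (k + 2) ≤ 1 / 4 := by
      calc (1 / 2 : ℝ) ^ (k + 2) ≤ (1 / 2) ^ 2 :=
            pow_le_pow_of_le_one (by norm_num) (by norm_num) (by omega)
        _ = 1 / 4 := by norm_num
    have h6 : 1 - (1 / 2 : ℝ) ^ (k + 2) ≤ ‖D.h (m + k + 1) z‖ := by
      unfold h
      rw [norm_inv]
      have h7 : ‖1 - D.w (m + k + 1) z‖ ≤ 1 + (1 / 2) ^ (k + 2) := by
        have := norm_sub_le (1 : ℂ) (D.w (m + k + 1) z)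
        rw [norm_one] at this
        linarith
      have h8 : 0 < ‖1 - D.w (m + k + 1) z‖ := by
        have := norm_sub_norm_le (1 : ℂ) (D.w (m + k + 1) z)
        rw [norm_one] at this
        linarith
      have hx : (0 : ℝ) < (1 / 2) ^ (k + 2) := by positivity
      calc 1 - (1 / 2 : ℝ) ^ (k + 2) ≤ (1 + (1 / 2 : ℝ) ^ (k + 2))⁻¹ := by
            rw [← one_div, le_div_iff₀ (by positivity)]
            nlinarith
        _ ≤ ‖1 - D.w (m + k + 1) z‖⁻¹ := inv_anti₀ h8 h7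
    have hx : (0 : ℝ) < (1 / 2) ^ (k + 2) := by positivity
    have e1 : (1 / 2 : ℝ) ^ (k + 1) = 2 * (1 / 2) ^ (k + 2) := by
      rw [pow_succ (1 / 2 : ℝ) (k + 1)]; ring
    rw [show k + 1 + 1 = k + 2 by ring]
    rw [e1] at ih
    have hn := norm_nonneg (D.P (m + 1) z)
    set x : ℝ := (1 / 2) ^ (k + 2) with hxdef
    calc ‖D.P (m + 1) z‖ * (1 / 2 + x)
        ≤ ‖D.P (m + 1) z‖ * ((1 / 2 + 2 * x) * (1 - x)) := by
          refine mul_le_mul_of_nonneg_left ?_ hn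
          nlinarith
      _ = (‖D.P (m + 1) z‖ * (1 / 2 + 2 * x)) * (1 - x) := by ring
      _ ≤ ‖D.P (m + 1 + k) z‖ * ‖D.h (m + k + 1) z‖ := by
          refine mul_le_mul ih h6 (by linarith) (norm_nonneg _)

lemma f_ne {z : ℂ} (hz : z ∈ D.Out) (h1 : ‖z‖ < 1) : D.f z ≠ 0 := by
  obtain ⟨m, hm⟩ := exists_rho_ge ‖z‖ h1
  have h2 := (D.tendsto_P hz).norm
  have h3 : ∀ᶠ n in Filter.atTop, ‖D.P (m + 1) z‖ / 2 ≤ ‖D.P (n + 1) z‖ := by
    filter_upwards [Filter.eventually_ge_atTop m] with n hn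
    obtain ⟨k, rfl⟩ := Nat.exists_eq_add_of_le hn
    have h4 := D.P_lower m hm k
    rw [show m + k + 1 = m + 1 + k by ring]
    refine le_trans ?_ h4
    have h5 : (0 : ℝ) < (1 / 2) ^ (k + 1) := by positivity
    have h6 := norm_nonneg (D.P (m + 1) z)
    nlinarith
  have h4 : ‖D.P (m + 1) z‖ / 2 ≤ ‖D.f z‖ := ge_of_tendsto h2 h3
  have h5 : 0 < ‖D.P (m + 1) z‖ := norm_pos_iff.mpr (D.P_ne hz _)
  intro h0
  rw [h0, norm_zero] at h4
  linarith

lemma summable_rad : Summable D.rad ∧ ∑' i, D.rad i ≤ D.ε := by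
  have hfib : ∀ j, ∀ c : ℝ, HasSum (fun ω : {ω : ℂ // ω ∈ nthRootsFinset (D.N j) (1 : ℂ)} => c)
      ((D.N j : ℝ) * c) := by
    intro j c
    have h1 := hasSum_fintype (fun ω : {ω : ℂ // ω ∈ nthRootsFinset (D.N j) (1 : ℂ)} => c)
    have hcard : (nthRootsFinset (D.N j) (1 : ℂ)).card = D.N j :=
      (Complex.isPrimitiveRoot_exp (D.N j) (D.hN j).ne').card_nthRootsFinset
    simpa [hcard] using h1
  have hcol : ∀ j, HasSum (fun ω : {ω : ℂ // ω ∈ nthRootsFinset (D.N j) (1 : ℂ)} =>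
      D.rad ⟨j, ω⟩) (D.eps j) := by
    intro j
    have h1 := hfib j (D.eps j / D.N j)
    have h2 : (D.N j : ℝ) ≠ 0 := by exact_mod_cast (D.hN j).ne'
    rw [mul_div_cancel₀ _ h2] at h1
    exact h1
  have hgeo : HasSum (fun j => D.eps j) D.ε := by
    have := hasSum_geometric_two' D.ε
    exact this
  have hsum : Summable D.rad := by
    have : Summable (fun x : (Σ j : ℕ, {ω : ℂ // ω ∈ nthRootsFinset (D.N j) (1 : ℂ)}) =>
        D.rad x) := by
      rw [summable_sigma_of_nonneg (fun x => (D.rad_pos x).le)]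
      refine ⟨fun j => (hcol j).summable, ?_⟩
      refine hgeo.summable.congr fun j => ?_
      exact (hcol j).tsum_eq.symm
    exact this
  refine ⟨hsum, le_of_eq ?_⟩
  have h1 : HasSum D.rad (∑' i, D.rad i) := hsum.hasSum
  have h2 : HasSum (fun j => D.eps j) (∑' i, D.rad i) := by
    have : HasSum (fun x : (Σ j : ℕ, {ω : ℂ // ω ∈ nthRootsFinset (D.N j) (1 : ℂ)}) =>
        D.rad x) (∑' i, D.rad i) := h1
    exact this.sigma hcol
  exact h2.unique hgeo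

end Dat

/-- **McKissick's lemma** (unit disc). -/
theorem mck_unit (ε : ℝ) (hε : 0 < ε) : ∃ (ι : Type) (_ : Countable ι) (a : ι → ℂ) (r : ι → ℝ)
    (f : ℂ → ℂ), (∀ i, 0 < r i) ∧ Summable r ∧ ∑' i, r i ≤ ε ∧
    (∀ δ > 0, ∃ g ∈ poleAlg a, ∀ z, (∀ i, r i ≤ ‖z - a i‖) → ‖g z - f z‖ ≤ δ) ∧
    (∀ z, (∀ i, r i ≤ ‖z - a i‖) → 1 ≤ ‖z‖ → f z = 0) ∧
    (∀ z, (∀ i, r i ≤ ‖z - a i‖) → ‖z‖ < 1 → f z ≠ 0) := by
  set ε' : ℝ := min ε 1 with hε'
  have h0 : 0 < ε' := lt_min hε one_pos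
  obtain ⟨N, hN⟩ := exists_N (fun j => (1 / 2) ^ (j + 1) *
    ∏ l ∈ Finset.range j, (ε' / 2 / 2 ^ l / 3))
    (fun j => mul_pos (by positivity) (Finset.prod_pos fun l _ => by positivity))
  let D : Dat :=
    { ε := ε', hε := h0, hε1 := min_le_right _ _, N := N, hN := fun j => (hN j).1,
      hbig := fun j => (hN j).2.1, hsmall := fun i => (hN (i + 1)).2.2 i rfl }
  refine ⟨D.I, inferInstance, D.pole, D.rad, D.f, D.rad_pos, D.summable_rad.1,
    D.summable_rad.2.trans (min_le_left _ _), ?_, ?_, ?_⟩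
  · intro δ hδ
    obtain ⟨g, hg, h⟩ := D.approx δ hδ
    exact ⟨g, hg, fun z hz => h z hz⟩
  · intro z hz h1
    exact D.f_zero hz h1
  · intro z hz h1
    exact D.f_ne hz h1

/-- **McKissick's lemma** for a general disc. -/
theorem mck (c : ℂ) (s : ℝ) (hs : 0 < s) (ε : ℝ) (hε : 0 < ε) :
    ∃ (ι : Type) (_ : Countable ι) (a : ι → ℂ) (r : ι → ℝ)
    (f : ℂ → ℂ), (∀ i, 0 < r i) ∧ Summable r ∧ ∑' i, r i ≤ ε ∧
    (∀ δ > 0, ∃ g ∈ poleAlg a, ∀ z, (∀ i, r i ≤ ‖z - a i‖) → ‖g z - f z‖ ≤ δ) ∧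
    (∀ z, (∀ i, r i ≤ ‖z - a i‖) → s ≤ ‖z - c‖ → f z = 0) ∧
    (∀ z, (∀ i, r i ≤ ‖z - a i‖) → ‖z - c‖ < s → f z ≠ 0) := by
  obtain ⟨ι, hι, a, r, f, hr, hsum, hle, happ, hz0, hne⟩ := mck_unit (ε / s) (div_pos hε hs)
  have hsc : (s : ℂ) ≠ 0 := by exact_mod_cast hs.ne'
  have hnorm : ∀ z : ℂ, ‖(z - c) / s‖ = ‖z - c‖ / s := fun z => by
    rw [norm_div, Complex.norm_real, Real.norm_of_nonneg hs.le]
  have htr : ∀ z, (∀ i, s * r i ≤ ‖z - (c + s * a i)‖) → ∀ i, r i ≤ ‖(z - c) / s - a i‖ := by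
    intro z hz i
    have h1 : (z - c) / s - a i = (z - (c + s * a i)) / s := by field_simp; ring
    rw [h1, norm_div, Complex.norm_real, Real.norm_of_nonneg hs.le, le_div_iff₀ hs]
    rw [mul_comm]; exact hz i
  refine ⟨ι, hι, fun i => c + s * a i, fun i => s * r i, fun z => f ((z - c) / s),
    fun i => mul_pos hs (hr i), hsum.mul_left s, ?_, ?_, ?_, ?_⟩
  · rw [tsum_mul_left]
    calc s * ∑' i, r i ≤ s * (ε / s) := mul_le_mul_of_nonneg_left hle hs.le
      _ = ε := mul_div_cancel₀ _ hs.ne'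
  · intro δ hδ
    obtain ⟨g, hg, h⟩ := happ δ hδ
    refine ⟨fun z => g ((z - c) / s), ?_, fun z hz => h _ (htr z hz)⟩
    have key : ∀ g ∈ poleAlg a, (fun z : ℂ => g ((z - c) / s)) ∈
        poleAlg (fun i => c + s * a i) := by
      intro g hg
      induction hg using Algebra.adjoin_induction with
      | mem x hx =>
        obtain ⟨i, rfl⟩ := hx
        have : (fun z : ℂ => ((z - c) / s - a i)⁻¹)
            = (fun _ : ℂ => (s : ℂ)) * (fun z : ℂ => (z - (c + s * a i))⁻¹) := by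
          funext z
          simp only [Pi.mul_apply]
          have h1 : (z - c) / s - a i = (z - (c + s * a i)) / s := by field_simp; ring
          rw [h1, inv_div, div_eq_mul_inv]
        show (fun z : ℂ => ((z - c) / s - a i)⁻¹) ∈ _
        rw [this]
        refine Subalgebra.mul_mem _ ?_ (Algebra.subset_adjoin ⟨i, rfl⟩)
        exact Subalgebra.algebraMap_mem _ (s : ℂ)
      | algebraMap r => exact Subalgebra.algebraMap_mem _ r
      | add x y _ _ hx hy => exact Subalgebra.add_mem _ hx hy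
      | mul x y _ _ hx hy => exact Subalgebra.mul_mem _ hx hy
    exact key g hg
  · intro z hz h1
    refine hz0 _ (htr z hz) ?_
    rw [hnorm, one_le_div hs]; exact h1
  · intro z hz h1
    refine hne _ (htr z hz) ?_
    rw [hnorm, div_lt_one hs]; exact h1

end Pool.Agent.H896R3
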