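import Mathlib
import Pool.Agent.H896R3.McK
import Pool.Agent.H896R3.Cheese

set_option autoImplicit false

namespace Pool.Agent.H896R3

open ComplexConjugate

/-! ### the base cheese -/

theorem base_exists : ∃ (ι : Type) (_ : Countable ι) (a : ι → ℂ) (r : ι → ℝ),
    (∀ i, 0 < r i) ∧ Summable r ∧ ∑' i, r i ≤ 1 / 8 ∧
    ∀ z0 : ℂ, ∀ δ > 0, ∃ f : ℂ → ℂ,
      (∀ η > 0, ∃ g ∈ poleAlg a, ∀ z ∈ Cheese a r, ‖g z - f z‖ ≤ η) ∧
      (z0 ∈ Cheese a r → f z0 ≠ 0) ∧ ∀ z ∈ Cheese a r, δ ≤ ‖z - z0‖ → f z = 0 := by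
  have H := fun m : ℕ => mck (TopologicalSpace.denseSeq ℂ (Nat.unpair m).1)
    (1 / ((Nat.unpair m).2 + 1)) (by positivity) ((1 / 8) / 2 / 2 ^ m) (by positivity)
  choose κ hκ a r f hr hsum hle happ hz hne using H
  have hgeo : HasSum (fun m : ℕ => (1 / 8 : ℝ) / 2 / 2 ^ m) (1 / 8) := hasSum_geometric_two' _
  have hsumtot : Summable (fun x : Σ m, κ m => r x.1 x.2) := by
    rw [summable_sigma_of_nonneg (fun x => (hr x.1 x.2).le)]
    refine ⟨fun m => hsum m, ?_⟩
    refine Summable.of_nonneg_of_le (fun m => tsum_nonneg fun i => (hr m i).le)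
      (fun m => hle m) hgeo.summable
  refine ⟨Σ m, κ m, inferInstance, fun x => a x.1 x.2, fun x => r x.1 x.2,
    fun x => hr x.1 x.2, hsumtot, ?_, ?_⟩
  · rw [hsumtot.tsum_sigma' (fun m => hsum m)]
    rw [← hgeo.tsum_eq]
    refine Summable.tsum_le_tsum (fun m => hle m) ?_ hgeo.summable
    refine Summable.of_nonneg_of_le (fun m => tsum_nonneg fun i => (hr m i).le)
      (fun m => hle m) hgeo.summable
  · intro z0 δ hδ
    obtain ⟨l, hl⟩ := exists_nat_one_div_lt (half_pos hδ)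
    have hl0 : (0 : ℝ) < 1 / ((l : ℝ) + 1) := by positivity
    obtain ⟨k, hk⟩ := Metric.denseRange_iff.mp (TopologicalSpace.denseRange_denseSeq ℂ) z0
      (1 / ((l : ℝ) + 1)) hl0
    rw [dist_eq_norm] at hk
    have e1 : (Nat.unpair (Nat.pair k l)).1 = k := by simp
    have e2 : (Nat.unpair (Nat.pair k l)).2 = l := by simp
    have happ' := happ (Nat.pair k l)
    have hz' := hz (Nat.pair k l)
    have hne' := hne (Nat.pair k l)
    rw [e1, e2] at hz' hne'
    refine ⟨f (Nat.pair k l), ?_, ?_, ?_⟩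
    · intro η hη
      obtain ⟨g, hg, h⟩ := happ' η hη
      refine ⟨g, ?_, fun z hzC => h z fun i => hzC.2 ⟨Nat.pair k l, i⟩⟩
      refine Algebra.adjoin_mono ?_ hg
      rintro _ ⟨i, rfl⟩
      exact ⟨⟨Nat.pair k l, i⟩, rfl⟩
    · intro hzC
      exact hne' z0 (fun i => hzC.2 ⟨Nat.pair k l, i⟩) hk
    · intro z hzC hzδ
      refine hz' z (fun i => hzC.2 ⟨Nat.pair k l, i⟩) ?_
      have := norm_sub_le_norm_sub_add_norm_sub z (TopologicalSpace.denseSeq ℂ k) z0
      rw [norm_sub_rev (TopologicalSpace.denseSeq ℂ k) z0] at this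
      linarith

/-! ### terms -/

/-- Terms: coordinate, simple fractions, constants, sums, products, and formal square roots. -/
inductive Tm (ι : Type) : Type
  | x : Tm ι
  | pole : ι → Tm ι
  | cst : ℕ → Tm ι
  | add : Tm ι → Tm ι → Tm ι
  | mul : Tm ι → Tm ι → Tm ι
  | sq : Tm ι → Tm ι
deriving Countable

/-- a dense sequence of constants -/
noncomputable def dd (n : ℕ) : ℂ := TopologicalSpace.denseSeq ℂ n

/-- The evaluations of terms: `w t` is the value of the term `t`. -/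
structure IsPt {ι : Type} (a : ι → ℂ) (r : ι → ℝ) (w : Tm ι → ℂ) : Prop where
  hx : w .x ∈ Cheese a r
  hpole : ∀ i, w (.pole i) * (w .x - a i) = 1
  hcst : ∀ n, w (.cst n) = dd n
  hadd : ∀ s t, w (.add s t) = w s + w t
  hmul : ∀ s t, w (.mul s t) = w s * w t
  hsq : ∀ t, w (.sq t) * w (.sq t) = w t

section

variable {ι : Type} {a : ι → ℂ} {r : ι → ℝ}

/-- uniform bounds for the values of the terms -/
noncomputable def bd (r : ι → ℝ) : Tm ι → ℝ
  | .x => 1
  | .pole i => (r i)⁻¹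
  | .cst n => ‖dd n‖
  | .add s t => bd r s + bd r t
  | .mul s t => bd r s * bd r t
  | .sq t => bd r t + 1

lemma IsPt.norm_pole (hr : ∀ i, 0 < r i) {w : Tm ι → ℂ} (hw : IsPt a r w) (i : ι) :
    ‖w (.pole i)‖ ≤ (r i)⁻¹ := by
  have h1 := congrArg norm (hw.hpole i)
  rw [norm_mul, norm_one] at h1
  have h2 := hw.hx.2 i
  have h3 := hr i
  have h4 : 0 < ‖w .x - a i‖ := by linarith
  have h5 : ‖w (.pole i)‖ = ‖w .x - a i‖⁻¹ := by
    field_simp; exact h1
  rw [h5]
  exact inv_anti₀ h3 h2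

lemma IsPt.norm_le (hr : ∀ i, 0 < r i) {w : Tm ι → ℂ} (hw : IsPt a r w) (t : Tm ι) :
    ‖w t‖ ≤ bd r t := by
  induction t with
  | x => exact hw.hx.1
  | pole i => exact hw.norm_pole hr i
  | cst n => rw [hw.hcst]; exact le_rfl
  | add s t hs ht => rw [hw.hadd]; exact (norm_add_le _ _).trans (add_le_add hs ht)
  | mul s t hs ht =>
    rw [hw.hmul, norm_mul]
    exact mul_le_mul hs ht (norm_nonneg _) ((norm_nonneg _).trans hs)
  | sq t ht =>
    have h1 : ‖w (.sq t)‖ * ‖w (.sq t)‖ ≤ bd r t := by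
      rw [← norm_mul, hw.hsq]; exact ht
    show ‖w (.sq t)‖ ≤ bd r t + 1
    have := norm_nonneg (w (.sq t))
    nlinarith

/-- the compact space of evaluations -/
def X (a : ι → ℂ) (r : ι → ℝ) : Type := {w : Tm ι → ℂ // IsPt a r w}

noncomputable instance : TopologicalSpace (X a r) := instTopologicalSpaceSubtype

lemma isEmbedding_val : Topology.IsEmbedding (fun w : X a r => w.1) :=
  Topology.IsEmbedding.subtypeVal

instance [Countable ι] : TopologicalSpace.MetrizableSpace (X a r) :=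
  isEmbedding_val.metrizableSpace

lemma isClosed_pts (a : ι → ℂ) (r : ι → ℝ) : IsClosed {w : Tm ι → ℂ | IsPt a r w} := by
  have h : {w : Tm ι → ℂ | IsPt a r w} =
      ({w | ‖w .x‖ ≤ 1} ∩ ⋂ i, {w | r i ≤ ‖w .x - a i‖}) ∩
      (⋂ i, {w | w (.pole i) * (w .x - a i) = 1}) ∩
      (⋂ n, {w | w (.cst n) = dd n}) ∩
      (⋂ s, ⋂ t, {w | w (.add s t) = w s + w t}) ∩
      (⋂ s, ⋂ t, {w | w (.mul s t) = w s * w t}) ∩
      (⋂ t, {w | w (.sq t) * w (.sq t) = w t}) := by
    ext w
    simp only [Set.mem_ofPred_eq, Set.mem_inter_iff, Set.mem_iInter]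
    constructor
    · intro h
      exact ⟨⟨⟨⟨⟨h.hx, h.hpole⟩, h.hcst⟩, h.hadd⟩, h.hmul⟩, h.hsq⟩
    · rintro ⟨⟨⟨⟨⟨h1, h2⟩, h3⟩, h4⟩, h5⟩, h6⟩
      exact ⟨h1, h2, h3, h4, h5, h6⟩
  rw [h]
  refine IsClosed.inter (IsClosed.inter (IsClosed.inter (IsClosed.inter (IsClosed.inter
    (IsClosed.inter ?_ ?_) ?_) ?_) ?_) ?_) ?_
  · exact isClosed_le (by fun_prop) continuous_const
  · exact isClosed_iInter fun i => isClosed_le continuous_const (by fun_prop)
  · exact isClosed_iInter fun i => isClosed_eq (by fun_prop) continuous_const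
  · exact isClosed_iInter fun n => isClosed_eq (by fun_prop) continuous_const
  · exact isClosed_iInter fun s => isClosed_iInter fun t => isClosed_eq (by fun_prop) (by fun_prop)
  · exact isClosed_iInter fun s => isClosed_iInter fun t => isClosed_eq (by fun_prop) (by fun_prop)
  · exact isClosed_iInter fun t => isClosed_eq (by fun_prop) (by fun_prop)

lemma compactSpace_X (hr : ∀ i, 0 < r i) : CompactSpace (X a r) := by
  have h1 : IsCompact (Set.univ.pi fun t : Tm ι => Metric.closedBall (0 : ℂ) (bd r t)) :=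
    isCompact_univ_pi fun t => isCompact_closedBall _ _
  have h2 : IsCompact {w : Tm ι → ℂ | IsPt a r w} := by
    refine h1.of_isClosed_subset (isClosed_pts a r) ?_
    intro w hw t _
    rw [mem_closedBall_zero_iff]
    exact hw.norm_le hr t
  exact isCompact_iff_compactSpace.mp h2

/-- evaluation functions -/
def ev (a : ι → ℂ) (r : ι → ℝ) (t : Tm ι) : C(X a r, ℂ) :=
  ⟨fun w => w.1 t, (continuous_apply t).comp continuous_subtype_val⟩

@[simp] lemma ev_apply (t : Tm ι) (w : X a r) : ev a r t w = w.1 t := rfl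

/-! ### points of the space -/

/-- a square root -/
noncomputable def rt (z : ℂ) : ℂ := z ^ (((2 : ℕ) : ℂ)⁻¹)

lemma rt_mul (z : ℂ) : rt z * rt z = z := by
  have := Complex.cpow_nat_inv_pow z (n := 2) two_ne_zero
  rw [pow_two] at this
  exact this

/-- the evaluation over a point of the cheese, with a fixed choice of roots -/
noncomputable def base (a : ι → ℂ) (z : ℂ) : Tm ι → ℂ
  | .x => z
  | .pole i => (z - a i)⁻¹
  | .cst n => dd n
  | .add s t => base a z s + base a z t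
  | .mul s t => base a z s * base a z t
  | .sq t => rt (base a z t)

lemma isPt_base (hr : ∀ i, 0 < r i) {z : ℂ} (hz : z ∈ Cheese a r) : IsPt a r (base a z) where
  hx := hz
  hpole i := by
    have h1 := hz.2 i
    have h2 := hr i
    have h3 : z - a i ≠ 0 := by
      intro h0; rw [h0, norm_zero] at h1; linarith
    exact inv_mul_cancel₀ h3
  hcst _ := rfl
  hadd _ _ := rfl
  hmul _ _ := rfl
  hsq _ := rt_mul _

/-- rank: nesting depth of square roots -/
def rk : Tm ι → ℕ
  | .x => 0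
  | .pole _ => 0
  | .cst _ => 0
  | .add s t => max (rk s) (rk t)
  | .mul s t => max (rk s) (rk t)
  | .sq t => rk t + 1

open Classical in
/-- changing the sign of the root of `s` -/
noncomputable def flip (w : Tm ι → ℂ) (s : Tm ι) : Tm ι → ℂ
  | .x => w .x
  | .pole i => w (.pole i)
  | .cst n => w (.cst n)
  | .add p q => flip w s p + flip w s q
  | .mul p q => flip w s p * flip w s q
  | .sq t => if flip w s t = w t then (if t = s then -w (.sq t) else w (.sq t)) else rt (flip w s t)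

lemma isPt_flip {w : Tm ι → ℂ} (hw : IsPt a r w) (s : Tm ι) : IsPt a r (flip w s) where
  hx := hw.hx
  hpole := hw.hpole
  hcst := hw.hcst
  hadd _ _ := by simp only [flip]
  hmul _ _ := by simp only [flip]
  hsq t := by
    simp only [flip]
    split_ifs with h1 h2
    · rw [neg_mul_neg, hw.hsq, h1]
    · rw [hw.hsq, h1]
    · exact rt_mul _

lemma flip_low {w : Tm ι → ℂ} (hw : IsPt a r w) (s t : Tm ι) (h : rk t ≤ rk s) :
    flip w s t = w t := by
  induction t with
  | x => rfl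
  | pole i => rfl
  | cst n => rfl
  | add p q hp hq =>
    simp only [rk, max_le_iff] at h
    simp only [flip]
    rw [hp h.1, hq h.2, hw.hadd]
  | mul p q hp hq =>
    simp only [rk, max_le_iff] at h
    simp only [flip]
    rw [hp h.1, hq h.2, hw.hmul]
  | sq t ht =>
    simp only [rk] at h
    have h1 : t ≠ s := by
      rintro rfl; omega
    simp only [flip]
    rw [if_pos (ht (by omega)), if_neg h1]

lemma flip_sq_self {w : Tm ι → ℂ} (hw : IsPt a r w) (s : Tm ι) :
    flip w s (.sq s) = -w (.sq s) := by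
  simp only [flip]
  rw [if_pos (flip_low hw s s le_rfl), if_pos trivial]

lemma flip_sq_ne {w : Tm ι → ℂ} (hw : IsPt a r w) (s t : Tm ι) (h : rk t ≤ rk s) (hne : t ≠ s) :
    flip w s (.sq t) = w (.sq t) := by
  simp only [flip]
  rw [if_pos (flip_low hw s t h), if_neg hne]

/-! ### elimination of the roots -/

lemma elim {Y : Type} (U : Set (Y → ℂ)) (z : Y → ℂ) (hz : z * z ∈ Algebra.adjoin ℂ U)
    (τ : Y → Y) (hU : ∀ g ∈ U, ∀ w, g (τ w) = g w) (hτ : ∀ w, z (τ w) = -z w)
    (h : Y → ℂ) (hh : ∀ w, h (τ w) = h w) (c : ℝ) (G : Y → ℂ)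
    (hG : G ∈ Algebra.adjoin ℂ (insert z U)) (hb : ∀ w, ‖G w - h w‖ ≤ c) :
    ∃ G' ∈ Algebra.adjoin ℂ U, ∀ w, ‖G' w - h w‖ ≤ c := by
  have hrep : ∃ b ∈ Algebra.adjoin ℂ U, ∃ b' ∈ Algebra.adjoin ℂ U, G = b + b' * z := by
    clear hb
    induction hG using Algebra.adjoin_induction with
    | mem x hx =>
      rcases hx with rfl | hx
      · exact ⟨0, Subalgebra.zero_mem _, 1, Subalgebra.one_mem _, by simp⟩
      · exact ⟨x, Algebra.subset_adjoin hx, 0, Subalgebra.zero_mem _, by simp⟩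
    | algebraMap c => exact ⟨_, Subalgebra.algebraMap_mem _ c, 0, Subalgebra.zero_mem _, by simp⟩
    | add x y _ _ hx hy =>
      obtain ⟨b1, h1, b1', h1', e1⟩ := hx
      obtain ⟨b2, h2, b2', h2', e2⟩ := hy
      exact ⟨b1 + b2, Subalgebra.add_mem _ h1 h2, b1' + b2', Subalgebra.add_mem _ h1' h2',
        by rw [e1, e2]; ring⟩
    | mul x y _ _ hx hy =>
      obtain ⟨b1, h1, b1', h1', e1⟩ := hx
      obtain ⟨b2, h2, b2', h2', e2⟩ := hy
      refine ⟨b1 * b2 + b1' * b2' * (z * z), Subalgebra.add_mem _ (Subalgebra.mul_mem _ h1 h2)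
        (Subalgebra.mul_mem _ (Subalgebra.mul_mem _ h1' h2') hz), b1 * b2' + b1' * b2,
        Subalgebra.add_mem _ (Subalgebra.mul_mem _ h1 h2') (Subalgebra.mul_mem _ h1' h2),
        by rw [e1, e2]; ring⟩
  have hinv : ∀ b ∈ Algebra.adjoin ℂ U, ∀ w, b (τ w) = b w := by
    intro b hb
    induction hb using Algebra.adjoin_induction with
    | mem x hx => exact hU x hx
    | algebraMap c => intro w; rfl
    | add x y _ _ hx hy => intro w; simp only [Pi.add_apply, hx w, hy w]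
    | mul x y _ _ hx hy => intro w; simp only [Pi.mul_apply, hx w, hy w]
  obtain ⟨b, hbm, b', hbm', e⟩ := hrep
  refine ⟨b, hbm, fun w => ?_⟩
  have h1 := hb w
  have h2 := hb (τ w)
  rw [hh, e] at h2
  rw [e] at h1
  simp only [Pi.add_apply, Pi.mul_apply] at h1 h2
  rw [hinv b hbm w, hinv b' hbm' w, hτ w] at h2
  have h3 : b w - h w = (1 / 2 : ℂ) * ((b w + b' w * z w - h w) + (b w + b' w * -z w - h w)) := by
    ring
  rw [h3, norm_mul]
  have h4 : ‖(1 / 2 : ℂ)‖ = 1 / 2 := by simp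
  rw [h4]
  have h5 := norm_add_le (b w + b' w * z w - h w) (b w + b' w * -z w - h w)
  linarith

/-- the coordinate functions of rank at most `n` -/
def Un (a : ι → ℂ) (r : ι → ℝ) (n : ℕ) : Set (X a r → ℂ) :=
  {g | ∃ t, rk t ≤ n ∧ g = fun w => w.1 t}

/-- the roots of a set of terms -/
def Vs (a : ι → ℂ) (r : ι → ℝ) (S : Set (Tm ι)) : Set (X a r → ℂ) :=
  {g | ∃ s ∈ S, g = fun w => w.1 (.sq s)}

lemma elim_finset (n : ℕ) (S : Finset (Tm ι)) (hS : ∀ s ∈ S, rk s = n) (c : ℝ) :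
    ∀ G ∈ Algebra.adjoin ℂ (Un a r n ∪ Vs a r S), (∀ w : X a r, ‖G w - conj (w.1 .x)‖ ≤ c) →
    ∃ G' ∈ Algebra.adjoin ℂ (Un a r n), ∀ w : X a r, ‖G' w - conj (w.1 .x)‖ ≤ c := by
  classical
  induction S using Finset.induction_on with
  | empty =>
    intro G hG hb
    refine ⟨G, ?_, hb⟩
    have : Vs a r (((∅ : Finset (Tm ι)) : Set (Tm ι))) = ∅ := by
      ext g; simp [Vs]
    rwa [this, Set.union_empty] at hG
  | insert s S hs ih =>
    intro G hG hb
    have hsn : rk s = n := hS s (Finset.mem_insert_self _ _)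
    have hset : Un a r n ∪ Vs a r ((insert s S : Finset (Tm ι)) : Set (Tm ι))
        = insert (fun w : X a r => w.1 (.sq s)) (Un a r n ∪ Vs a r S) := by
      ext g
      simp only [Vs, Finset.coe_insert, Set.mem_union, Set.mem_insert_iff]
      constructor
      · rintro (h | ⟨t, ht, rfl⟩)
        · exact Or.inr (Or.inl h)
        · rcases ht with rfl | ht
          · exact Or.inl rfl
          · exact Or.inr (Or.inr ⟨t, ht, rfl⟩)
      · rintro (rfl | h | ⟨t, ht, rfl⟩)
        · exact Or.inr ⟨s, Or.inl rfl, rfl⟩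
        · exact Or.inl h
        · exact Or.inr ⟨t, Or.inr ht, rfl⟩
    rw [hset] at hG
    obtain ⟨G1, hG1, hb1⟩ := elim (Un a r n ∪ Vs a r S) (fun w : X a r => w.1 (.sq s))
      (by
        refine Algebra.subset_adjoin (Or.inl ⟨s, hsn.le, ?_⟩)
        funext w
        exact w.2.hsq s)
      (fun w => ⟨flip w.1 s, isPt_flip w.2 s⟩)
      (by
        rintro g (⟨t, ht, rfl⟩ | ⟨t, ht, rfl⟩) w
        · exact flip_low w.2 s t (by rw [hsn]; exact ht)
        · have htS : t ∈ S := ht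
          refine flip_sq_ne w.2 s t ?_ ?_
          · rw [hsn, hS t (Finset.mem_insert_of_mem htS)]
          · rintro rfl; exact hs htS)
      (fun w => flip_sq_self w.2 s)
      (fun w => conj (w.1 .x)) (fun w => rfl) c G hG hb
    exact ih (fun t ht => hS t (Finset.mem_insert_of_mem ht)) G1 hG1 hb1

lemma adjoin_mono' (n : ℕ) {S T : Set (Tm ι)} (h : S ⊆ T) :
    Algebra.adjoin ℂ (Un a r n ∪ Vs a r S) ≤ Algebra.adjoin ℂ (Un a r n ∪ Vs a r T) := by
  refine Algebra.adjoin_mono (Set.union_subset_union_right _ ?_)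
  rintro g ⟨s, hs, rfl⟩
  exact ⟨s, h hs, rfl⟩

lemma ev_level (n : ℕ) (t : Tm ι) (ht : rk t ≤ n + 1) :
    ∃ S : Finset (Tm ι), (∀ s ∈ S, rk s = n) ∧
      (fun w : X a r => w.1 t) ∈ Algebra.adjoin ℂ (Un a r n ∪ Vs a r S) := by
  classical
  induction t with
  | x => exact ⟨∅, by simp, Algebra.subset_adjoin (Or.inl ⟨.x, by simp [rk], rfl⟩)⟩
  | pole i => exact ⟨∅, by simp, Algebra.subset_adjoin (Or.inl ⟨.pole i, by simp [rk], rfl⟩)⟩
  | cst i => exact ⟨∅, by simp, Algebra.subset_adjoin (Or.inl ⟨.cst i, by simp [rk], rfl⟩)⟩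
  | add p q hp hq =>
    simp only [rk, max_le_iff] at ht
    obtain ⟨S1, h1, m1⟩ := hp ht.1
    obtain ⟨S2, h2, m2⟩ := hq ht.2
    refine ⟨S1 ∪ S2, fun s hs => ?_, ?_⟩
    · rcases Finset.mem_union.mp hs with h | h
      · exact h1 s h
      · exact h2 s h
    · have e : (fun w : X a r => w.1 (.add p q)) =
          (fun w : X a r => w.1 p) + (fun w : X a r => w.1 q) := by
        funext w; exact w.2.hadd p q
      rw [e]
      refine Subalgebra.add_mem _ ?_ ?_
      · refine adjoin_mono' n ?_ m1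
        intro s hs; simp only [Finset.coe_union, Set.mem_union]; exact Or.inl hs
      · refine adjoin_mono' n ?_ m2
        intro s hs; simp only [Finset.coe_union, Set.mem_union]; exact Or.inr hs
  | mul p q hp hq =>
    simp only [rk, max_le_iff] at ht
    obtain ⟨S1, h1, m1⟩ := hp ht.1
    obtain ⟨S2, h2, m2⟩ := hq ht.2
    refine ⟨S1 ∪ S2, fun s hs => ?_, ?_⟩
    · rcases Finset.mem_union.mp hs with h | h
      · exact h1 s h
      · exact h2 s h
    · have e : (fun w : X a r => w.1 (.mul p q)) =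
          (fun w : X a r => w.1 p) * (fun w : X a r => w.1 q) := by
        funext w; exact w.2.hmul p q
      rw [e]
      refine Subalgebra.mul_mem _ ?_ ?_
      · refine adjoin_mono' n ?_ m1
        intro s hs; simp only [Finset.coe_union, Set.mem_union]; exact Or.inl hs
      · refine adjoin_mono' n ?_ m2
        intro s hs; simp only [Finset.coe_union, Set.mem_union]; exact Or.inr hs
  | sq t _ =>
    simp only [rk] at ht
    rcases Nat.lt_or_ge (rk t) n with h | h
    · exact ⟨∅, by simp, Algebra.subset_adjoin (Or.inl ⟨.sq t, by simp only [rk]; omega, rfl⟩)⟩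
    · refine ⟨{t}, fun s hs => ?_, Algebra.subset_adjoin (Or.inr ⟨t, by simp, rfl⟩)⟩
      rw [Finset.mem_singleton] at hs
      subst hs; omega

lemma adjoin_level (n : ℕ) (G : X a r → ℂ) (hG : G ∈ Algebra.adjoin ℂ (Un a r (n + 1))) :
    ∃ S : Finset (Tm ι), (∀ s ∈ S, rk s = n) ∧
      G ∈ Algebra.adjoin ℂ (Un a r n ∪ Vs a r S) := by
  classical
  induction hG using Algebra.adjoin_induction with
  | mem x hx =>
    obtain ⟨t, ht, rfl⟩ := hx
    exact ev_level n t ht
  | algebraMap c => exact ⟨∅, by simp, Subalgebra.algebraMap_mem _ c⟩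
  | add x y _ _ hx hy =>
    obtain ⟨S1, h1, m1⟩ := hx
    obtain ⟨S2, h2, m2⟩ := hy
    refine ⟨S1 ∪ S2, fun s hs => ?_, Subalgebra.add_mem _ (adjoin_mono' n ?_ m1)
      (adjoin_mono' n ?_ m2)⟩
    · rcases Finset.mem_union.mp hs with h | h
      · exact h1 s h
      · exact h2 s h
    · intro s hs; simp only [Finset.coe_union, Set.mem_union]; exact Or.inl hs
    · intro s hs; simp only [Finset.coe_union, Set.mem_union]; exact Or.inr hs
  | mul x y _ _ hx hy =>
    obtain ⟨S1, h1, m1⟩ := hx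
    obtain ⟨S2, h2, m2⟩ := hy
    refine ⟨S1 ∪ S2, fun s hs => ?_, Subalgebra.mul_mem _ (adjoin_mono' n ?_ m1)
      (adjoin_mono' n ?_ m2)⟩
    · rcases Finset.mem_union.mp hs with h | h
      · exact h1 s h
      · exact h2 s h
    · intro s hs; simp only [Finset.coe_union, Set.mem_union]; exact Or.inl hs
    · intro s hs; simp only [Finset.coe_union, Set.mem_union]; exact Or.inr hs

lemma elim_all (n : ℕ) (c : ℝ) : ∀ G ∈ Algebra.adjoin ℂ (Un a r n),
    (∀ w : X a r, ‖G w - conj (w.1 .x)‖ ≤ c) →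
    ∃ G' ∈ Algebra.adjoin ℂ (Un a r 0), ∀ w : X a r, ‖G' w - conj (w.1 .x)‖ ≤ c := by
  induction n with
  | zero => exact fun G hG hb => ⟨G, hG, hb⟩
  | succ n ih =>
    intro G hG hb
    obtain ⟨S, hS, hGS⟩ := adjoin_level n G hG
    obtain ⟨G1, h1, h2⟩ := elim_finset n S hS c G hGS hb
    exact ih G1 h1 h2

lemma rank_zero (G : X a r → ℂ) (hG : G ∈ Algebra.adjoin ℂ (Un a r 0)) :
    ∃ g ∈ ratAlg a, ∀ w : X a r, G w = g (w.1 .x) := by
  have key : ∀ t : Tm ι, rk t ≤ 0 → ∃ g ∈ ratAlg a, ∀ w : X a r, w.1 t = g (w.1 .x) := by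
    intro t
    induction t with
    | x => exact fun _ => ⟨_, Algebra.subset_adjoin (Or.inl rfl), fun w => rfl⟩
    | pole i =>
      refine fun _ => ⟨_, Algebra.subset_adjoin (Or.inr ⟨i, rfl⟩), fun w => ?_⟩
      have h1 := w.2.hpole i
      exact eq_inv_of_mul_eq_one_left h1
    | cst n =>
      refine fun _ => ⟨_, Subalgebra.algebraMap_mem _ (dd n), fun w => ?_⟩
      exact w.2.hcst n
    | add p q hp hq =>
      intro h
      simp only [rk, max_le_iff] at h
      obtain ⟨g1, m1, e1⟩ := hp h.1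
      obtain ⟨g2, m2, e2⟩ := hq h.2
      refine ⟨g1 + g2, Subalgebra.add_mem _ m1 m2, fun w => ?_⟩
      rw [w.2.hadd, e1, e2]; rfl
    | mul p q hp hq =>
      intro h
      simp only [rk, max_le_iff] at h
      obtain ⟨g1, m1, e1⟩ := hp h.1
      obtain ⟨g2, m2, e2⟩ := hq h.2
      refine ⟨g1 * g2, Subalgebra.mul_mem _ m1 m2, fun w => ?_⟩
      rw [w.2.hmul, e1, e2]; rfl
    | sq t _ =>
      intro h
      simp only [rk] at h
      omega
  induction hG using Algebra.adjoin_induction with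
  | mem x hx =>
    obtain ⟨t, ht, rfl⟩ := hx
    exact key t ht
  | algebraMap c => exact ⟨_, Subalgebra.algebraMap_mem _ c, fun w => rfl⟩
  | add x y _ _ hx hy =>
    obtain ⟨g1, m1, e1⟩ := hx
    obtain ⟨g2, m2, e2⟩ := hy
    refine ⟨g1 + g2, Subalgebra.add_mem _ m1 m2, fun w => ?_⟩
    simp only [Pi.add_apply, e1, e2]
  | mul x y _ _ hx hy =>
    obtain ⟨g1, m1, e1⟩ := hx
    obtain ⟨g2, m2, e2⟩ := hy
    refine ⟨g1 * g2, Subalgebra.mul_mem _ m1 m2, fun w => ?_⟩
    simp only [Pi.mul_apply, e1, e2]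

/-- no coordinate function is close to the conjugate of the first coordinate -/
theorem not_close (hr : ∀ i, 0 < r i) (hs : Summable r) (hle : ∑' i, r i ≤ 1 / 8) (t : Tm ι) :
    ∃ w : X a r, 1 / 10 < ‖w.1 t - conj (w.1 .x)‖ := by
  by_contra hcon
  push Not at hcon
  obtain ⟨G1, h1, h2⟩ := elim_all (a := a) (r := r) (rk t) (1 / 10) (fun w => w.1 t)
    (Algebra.subset_adjoin ⟨t, le_rfl, rfl⟩) hcon
  obtain ⟨g, hg, h3⟩ := rank_zero G1 h1
  obtain ⟨z, hz, h4⟩ := no_conj (a := a) r hr hs hle g hg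
  set p : X a r := ⟨base a z, isPt_base hr hz⟩ with hp
  have h5 := h2 p
  rw [h3 p] at h5
  have h6 : ‖g z - conj z‖ ≤ 1 / 10 := h5
  linarith

end

end Pool.Agent.H896R3
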