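import Mathlib
import Pool.Agent.H896R3.Tower

set_option autoImplicit false

namespace Pool.Agent.H896R3

open ComplexConjugate

/-- base data: a compact plane set with an abundance of rational functions -/
structure BD where
  ι : Type
  hι : Countable ι
  a : ι → ℂ
  r : ι → ℝ
  hr : ∀ i, 0 < r i
  hsum : Summable r
  hle : ∑' i, r i ≤ 1 / 8
  hreg : ∀ z0 : ℂ, ∀ δ > 0, ∃ f : ℂ → ℂ,
      (∀ η > 0, ∃ g ∈ poleAlg a, ∀ z ∈ Cheese a r, ‖g z - f z‖ ≤ η) ∧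
      (z0 ∈ Cheese a r → f z0 ≠ 0) ∧ ∀ z ∈ Cheese a r, δ ≤ ‖z - z0‖ → f z = 0

theorem BD_nonempty : Nonempty BD := by
  obtain ⟨ι, hι, a, r, hr, hs, hle, hreg⟩ := base_exists
  exact ⟨⟨ι, hι, a, r, hr, hs, hle, hreg⟩⟩

namespace BD

variable (B : BD)

instance : Countable B.ι := B.hι

/-- the space -/
abbrev Y : Type := X B.a B.r

instance : CompactSpace B.Y := compactSpace_X B.hr

/-- the evaluation functions -/
noncomputable abbrev e (t : Tm B.ι) : C(B.Y, ℂ) := ev B.a B.r t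

/-- the algebra -/
noncomputable def A : Subalgebra ℂ C(B.Y, ℂ) :=
  (Algebra.adjoin ℂ (Set.range B.e)).topologicalClosure

lemma isClosed_A : IsClosed (B.A : Set C(B.Y, ℂ)) := Subalgebra.isClosed_topologicalClosure _

lemma e_mem (t : Tm B.ι) : B.e t ∈ B.A :=
  Subalgebra.le_topologicalClosure _ (Algebra.subset_adjoin ⟨t, rfl⟩)

lemma e_add (s t : Tm B.ι) : B.e (.add s t) = B.e s + B.e t := by
  ext w; exact w.2.hadd s t

lemma e_mul (s t : Tm B.ι) : B.e (.mul s t) = B.e s * B.e t := by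
  ext w; exact w.2.hmul s t

lemma e_cst (n : ℕ) : B.e (.cst n) = algebraMap ℂ C(B.Y, ℂ) (dd n) := by
  ext w; exact w.2.hcst n

/-- the closure of the set of evaluation functions is itself an algebra -/
noncomputable def Cl : Subalgebra ℂ C(B.Y, ℂ) where
  carrier := closure (Set.range B.e)
  mul_mem' {x y} hx hy := by
    refine map_mem_closure₂ (f := fun x y => x * y) continuous_mul hx hy ?_
    rintro _ ⟨s, rfl⟩ _ ⟨t, rfl⟩
    exact ⟨.mul s t, B.e_mul s t⟩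
  add_mem' {x y} hx hy := by
    refine map_mem_closure₂ (f := fun x y => x + y) continuous_add hx hy ?_
    rintro _ ⟨s, rfl⟩ _ ⟨t, rfl⟩
    exact ⟨.add s t, B.e_add s t⟩
  algebraMap_mem' c := by
    have h1 : c ∈ closure (Set.range dd) := by
      have : DenseRange dd := TopologicalSpace.denseRange_denseSeq ℂ
      exact this c
    refine map_mem_closure (f := algebraMap ℂ C(B.Y, ℂ)) (continuous_algebraMap _ _) h1 ?_
    rintro _ ⟨n, rfl⟩
    exact ⟨.cst n, B.e_cst n⟩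

lemma A_le_Cl : B.A ≤ B.Cl := by
  refine Subalgebra.topologicalClosure_minimal ?_ isClosed_closure
  refine Algebra.adjoin_le ?_
  exact subset_closure

lemma dense {f : C(B.Y, ℂ)} (hf : f ∈ B.A) (ε : ℝ) (hε : 0 < ε) :
    ∃ t : Tm B.ι, ∀ w, ‖f w - w.1 t‖ < ε := by
  have h1 : f ∈ closure (Set.range B.e) := B.A_le_Cl hf
  obtain ⟨_, ⟨t, rfl⟩, h2⟩ := Metric.mem_closure_iff.mp h1 ε hε
  refine ⟨t, fun w => ?_⟩
  rw [dist_eq_norm] at h2
  exact ((f - B.e t).norm_coe_le_norm w).trans_lt h2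

/-- uniform limits of elements of the algebra -/
lemma closed_limit (F : B.Y → ℂ) (h : ∀ η > 0, ∃ G ∈ B.A, ∀ w, ‖G w - F w‖ ≤ η) :
    ∃ G ∈ B.A, ∀ w, G w = F w := by
  have h' : ∀ n : ℕ, ∃ G ∈ B.A, ∀ w, ‖G w - F w‖ ≤ 1 / ((n : ℝ) + 1) :=
    fun n => h _ (by positivity)
  choose G hG hb using h'
  have hcont : Continuous F := by
    have htu : TendstoUniformly (fun n w => G n w) F Filter.atTop := by
      rw [Metric.tendstoUniformly_iff]
      intro ε hε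
      obtain ⟨N, hN⟩ := exists_nat_one_div_lt hε
      filter_upwards [Filter.eventually_ge_atTop N] with n hn w
      rw [dist_comm, dist_eq_norm]
      refine (hb n w).trans_lt (lt_of_le_of_lt ?_ hN)
      gcongr
    exact htu.continuous (Filter.Frequently.of_forall fun n => (G n).continuous)
  refine ⟨⟨F, hcont⟩, ?_, fun w => rfl⟩
  have hcl : (⟨F, hcont⟩ : C(B.Y, ℂ)) ∈ closure (B.A : Set C(B.Y, ℂ)) := by
    rw [Metric.mem_closure_iff]
    intro ε hε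
    obtain ⟨G1, hG1, h1⟩ := h (ε / 2) (half_pos hε)
    refine ⟨G1, hG1, ?_⟩
    refine lt_of_le_of_lt ?_ (half_lt_self hε)
    rw [ContinuousMap.dist_le (half_pos hε).le]
    intro w
    rw [dist_comm, dist_eq_norm]
    exact h1 w
  rwa [B.isClosed_A.closure_eq] at hcl

/-! ### naturality -/

theorem natural (φ : B.A →ₐ[ℂ] ℂ) : ∃ x : B.Y, ∀ f : B.A, φ f = (f : C(B.Y, ℂ)) x := by
  haveI : CompleteSpace B.A := B.isClosed_A.completeSpace_coe
  have hone : ‖(1 : B.A)‖ ≤ 1 := by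
    show ‖(1 : C(B.Y, ℂ))‖ ≤ 1
    rw [ContinuousMap.norm_le _ zero_le_one]
    intro w
    simp
  have hbd : ∀ f : B.A, ‖φ f‖ ≤ ‖f‖ := by
    intro f
    have := AlgHom.norm_apply_le_self_mul_norm_one φ f
    refine this.trans ?_
    calc ‖f‖ * ‖(1 : B.A)‖ ≤ ‖f‖ * 1 := by gcongr
      _ = ‖f‖ := mul_one _
  have hpt : ∀ (f : C(B.Y, ℂ)) (hf : f ∈ B.A) (C : ℝ), 0 ≤ C → (∀ w, ‖f w‖ ≤ C) →
      ‖φ ⟨f, hf⟩‖ ≤ C := by
    intro f hf C hC h
    refine (hbd _).trans ?_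
    show ‖f‖ ≤ C
    rw [ContinuousMap.norm_le _ hC]
    exact h
  set v : Tm B.ι → ℂ := fun t => φ ⟨B.e t, B.e_mem t⟩ with hv
  have hpole : ∀ i, v (.pole i) * (v .x - B.a i) = 1 := by
    intro i
    have h1 : (⟨B.e (.pole i), B.e_mem _⟩ : B.A) *
        (⟨B.e .x, B.e_mem _⟩ - algebraMap ℂ B.A (B.a i)) = 1 := by
      apply Subtype.ext
      ext w
      exact w.2.hpole i
    have h2 := congrArg φ h1
    rw [map_mul, map_sub, map_one, AlgHom.commutes] at h2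
    exact h2
  have hvpt : IsPt B.a B.r v := by
    refine ⟨⟨?_, fun i => ?_⟩, hpole, fun n => ?_, fun s t => ?_, fun s t => ?_, fun t => ?_⟩
    · exact hpt _ (B.e_mem .x) 1 zero_le_one fun w => w.2.hx.1
    · have hri := B.hr i
      have h1 : ‖v (.pole i)‖ ≤ (B.r i)⁻¹ :=
        hpt _ (B.e_mem (.pole i)) _ (by positivity) fun w => w.2.norm_pole B.hr i
      have h2 := congrArg norm (hpole i)
      rw [norm_mul, norm_one] at h2
      have h3 : 1 ≤ (B.r i)⁻¹ * ‖v .x - B.a i‖ := by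
        rw [← h2]; gcongr
      rw [inv_mul_eq_div, le_div_iff₀ hri, one_mul] at h3
      exact h3
    · have h1 : (⟨B.e (.cst n), B.e_mem _⟩ : B.A) = algebraMap ℂ B.A (dd n) := by
        apply Subtype.ext; exact B.e_cst n
      show φ _ = _
      rw [h1, AlgHom.commutes]; rfl
    · have h1 : (⟨B.e (.add s t), B.e_mem _⟩ : B.A) =
          ⟨B.e s, B.e_mem _⟩ + ⟨B.e t, B.e_mem _⟩ := by
        apply Subtype.ext; exact B.e_add s t
      show φ _ = _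
      rw [h1, map_add]
    · have h1 : (⟨B.e (.mul s t), B.e_mem _⟩ : B.A) =
          ⟨B.e s, B.e_mem _⟩ * ⟨B.e t, B.e_mem _⟩ := by
        apply Subtype.ext; exact B.e_mul s t
      show φ _ = _
      rw [h1, map_mul]
    · have h1 : (⟨B.e (.sq t), B.e_mem _⟩ : B.A) * ⟨B.e (.sq t), B.e_mem _⟩ =
          ⟨B.e t, B.e_mem _⟩ := by
        apply Subtype.ext; ext w; exact w.2.hsq t
      show φ _ * φ _ = φ _
      rw [← h1, map_mul]
  refine ⟨⟨v, hvpt⟩, fun f => ?_⟩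
  by_contra hne
  have hpos : 0 < ‖φ f - (f : C(B.Y, ℂ)) ⟨v, hvpt⟩‖ := norm_pos_iff.mpr (sub_ne_zero.mpr hne)
  obtain ⟨t, ht⟩ := B.dense f.2 (‖φ f - (f : C(B.Y, ℂ)) ⟨v, hvpt⟩‖ / 2) (half_pos hpos)
  have h1 : ‖φ (f - ⟨B.e t, B.e_mem t⟩)‖ ≤ ‖φ f - (f : C(B.Y, ℂ)) ⟨v, hvpt⟩‖ / 2 := by
    refine (hbd _).trans ?_
    show ‖(f : C(B.Y, ℂ)) - B.e t‖ ≤ _
    rw [ContinuousMap.norm_le _ (half_pos hpos).le]
    exact fun w => (ht w).le
  rw [map_sub] at h1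
  have h2 := ht ⟨v, hvpt⟩
  have h3 : φ f - (f : C(B.Y, ℂ)) ⟨v, hvpt⟩ =
      (φ f - φ ⟨B.e t, B.e_mem t⟩) - ((f : C(B.Y, ℂ)) ⟨v, hvpt⟩ - v t) := by
    have : φ ⟨B.e t, B.e_mem t⟩ = v t := rfl
    rw [this]; ring
  have h4 := norm_sub_le (φ f - φ ⟨B.e t, B.e_mem t⟩) ((f : C(B.Y, ℂ)) ⟨v, hvpt⟩ - v t)
  rw [← h3] at h4
  have h5 : ‖(f : C(B.Y, ℂ)) ⟨v, hvpt⟩ - v t‖ < ‖φ f - (f : C(B.Y, ℂ)) ⟨v, hvpt⟩‖ / 2 := h2
  linarith

/-! ### separation, properness -/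

lemma separates (x y : B.Y) (h : x ≠ y) : ∃ f ∈ B.A, f x ≠ f y := by
  have : ∃ t, x.1 t ≠ y.1 t := by
    by_contra hcon
    push Not at hcon
    exact h (Subtype.ext (funext hcon))
  obtain ⟨t, ht⟩ := this
  exact ⟨B.e t, B.e_mem t, ht⟩

lemma ne_top : B.A ≠ ⊤ := by
  intro h
  have h1 : (⟨fun w : B.Y => conj (w.1 .x), Complex.continuous_conj.comp (B.e .x).continuous⟩ :
      C(B.Y, ℂ)) ∈ B.A := by rw [h]; trivial
  obtain ⟨t, ht⟩ := B.dense h1 (1 / 10) (by norm_num)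
  obtain ⟨w, hw⟩ := not_close (a := B.a) (r := B.r) B.hr B.hsum B.hle t
  have h2 := ht w
  rw [norm_sub_rev] at h2
  have h3 : ‖w.1 t - conj (w.1 .x)‖ < 1 / 10 := h2
  linarith

end BD

end Pool.Agent.H896R3
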