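import Mathlib
import Pool.Agent.H896R3.Alg

set_option autoImplicit false

namespace Pool.Agent.H896R3

open ComplexConjugate

/-- polynomial approximations of the square root near `1` -/
noncomputable def qn (v : ℂ) : ℕ → ℂ
  | 0 => 1
  | n + 1 => qn v n + (v - qn v n * qn v n) / 2

lemma qn_bound (s v : ℂ) (hs : s * s = v) (h1 : ‖s - 1‖ ≤ 1 / 4) (n : ℕ) :
    ‖qn v n - s‖ ≤ 1 / 4 * (1 / 2) ^ n := by
  induction n with
  | zero =>
    simp only [qn, pow_zero, mul_one]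
    rw [norm_sub_rev]; exact h1
  | succ n ih =>
    have e1 : qn v (n + 1) - s = (qn v n - s) * (((1 - qn v n) + (1 - s)) / 2) := by
      simp only [qn]; rw [← hs]; ring
    rw [e1, norm_mul]
    have h2 : ‖((1 - qn v n) + (1 - s)) / 2‖ ≤ 1 / 2 := by
      rw [norm_div]
      have h3 : ‖(2 : ℂ)‖ = 2 := by simp
      rw [h3]
      have h4 := norm_add_le (1 - qn v n) (1 - s)
      have h5 : ‖1 - qn v n‖ ≤ ‖1 - s‖ + ‖s - qn v n‖ := norm_sub_le_norm_sub_add_norm_sub _ _ _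
      have h6 : ‖1 - s‖ ≤ 1 / 4 := by rw [norm_sub_rev]; exact h1
      have h7 : ‖s - qn v n‖ ≤ 1 / 4 := by
        rw [norm_sub_rev]
        refine ih.trans ?_
        have : (1 / 2 : ℝ) ^ n ≤ 1 := pow_le_one₀ (by norm_num) (by norm_num)
        linarith
      linarith
    calc ‖qn v n - s‖ * ‖((1 - qn v n) + (1 - s)) / 2‖
        ≤ (1 / 4 * (1 / 2) ^ n) * (1 / 2) := by gcongr
      _ = 1 / 4 * (1 / 2) ^ (n + 1) := by rw [pow_succ]; ring

namespace BD

variable (B : BD)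

lemma poly_mem (g : ℂ → ℂ) (hg : g ∈ poleAlg B.a) : ∃ G ∈ B.A, ∀ w : B.Y, G w = g (w.1 .x) := by
  unfold poleAlg at hg
  induction hg using Algebra.adjoin_induction with
  | mem x hx =>
    obtain ⟨i, rfl⟩ := hx
    refine ⟨B.e (.pole i), B.e_mem _, fun w => ?_⟩
    exact eq_inv_of_mul_eq_one_left (w.2.hpole i)
  | algebraMap c => exact ⟨algebraMap ℂ _ c, Subalgebra.algebraMap_mem _ c, fun w => rfl⟩
  | add x y _ _ hx hy =>
    obtain ⟨G1, m1, e1⟩ := hx
    obtain ⟨G2, m2, e2⟩ := hy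
    exact ⟨G1 + G2, Subalgebra.add_mem _ m1 m2, fun w => by
      simp only [ContinuousMap.add_apply, Pi.add_apply, e1, e2]⟩
  | mul x y _ _ hx hy =>
    obtain ⟨G1, m1, e1⟩ := hx
    obtain ⟨G2, m2, e2⟩ := hy
    exact ⟨G1 * G2, Subalgebra.mul_mem _ m1 m2, fun w => by
      simp only [ContinuousMap.mul_apply, Pi.mul_apply, e1, e2]⟩

lemma reg_x (w0 : B.Y) (δ : ℝ) (hδ : 0 < δ) : ∃ g ∈ B.A, g w0 ≠ 0 ∧
    ∀ w : B.Y, δ ≤ ‖w.1 .x - w0.1 .x‖ → g w = 0 := by
  obtain ⟨f, happ, hne, hz⟩ := B.hreg (w0.1 .x) δ hδ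
  obtain ⟨G, hG, hGe⟩ := B.closed_limit (fun w => f (w.1 .x)) (by
    intro η hη
    obtain ⟨g, hg, hb⟩ := happ η hη
    obtain ⟨G, hG, hGe⟩ := B.poly_mem g hg
    exact ⟨G, hG, fun w => by rw [hGe]; exact hb _ w.2.hx⟩)
  refine ⟨G, hG, ?_, fun w hw => ?_⟩
  · rw [hGe]; exact hne w0.2.hx
  · rw [hGe]; exact hz _ w.2.hx hw

lemma bd_nonneg (w0 : B.Y) (t : Tm B.ι) : 0 ≤ bd B.r t :=
  (norm_nonneg _).trans (w0.2.norm_le B.hr t)

theorem reg (w0 : B.Y) (t : Tm B.ι) : ∀ δ > 0, ∃ g ∈ B.A, g w0 ≠ 0 ∧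
    ∀ w : B.Y, δ ≤ ‖w.1 t - w0.1 t‖ → g w = 0 := by
  induction t with
  | x => exact fun δ hδ => B.reg_x w0 δ hδ
  | pole i =>
    intro δ hδ
    have hri := B.hr i
    obtain ⟨g, hg, h0, hz⟩ := B.reg_x w0 (δ * (B.r i * B.r i)) (by positivity)
    refine ⟨g, hg, h0, fun w hw => hz w ?_⟩
    have e1 : w.1 (.pole i) - w0.1 (.pole i) =
        w.1 (.pole i) * w0.1 (.pole i) * (w0.1 .x - w.1 .x) := by
      linear_combination (w.1 (.pole i)) * (-(w0.2.hpole i)) + (w0.1 (.pole i)) * (w.2.hpole i)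
    rw [e1, norm_mul, norm_mul] at hw
    have h1 := w.2.norm_pole B.hr i
    have h2 := w0.2.norm_pole B.hr i
    rw [norm_sub_rev]
    have h3 : δ ≤ ((B.r i)⁻¹ * (B.r i)⁻¹) * ‖w0.1 .x - w.1 .x‖ := by
      refine hw.trans ?_
      gcongr
    calc δ * (B.r i * B.r i) ≤ (((B.r i)⁻¹ * (B.r i)⁻¹) * ‖w0.1 .x - w.1 .x‖) *
          (B.r i * B.r i) := by gcongr
      _ = ‖w0.1 .x - w.1 .x‖ := by field_simp
  | cst n =>
    intro δ hδ
    refine ⟨1, Subalgebra.one_mem _, by simp, fun w hw => ?_⟩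
    rw [w.2.hcst, w0.2.hcst, sub_self, norm_zero] at hw
    linarith
  | add s t hs ht =>
    intro δ hδ
    obtain ⟨g1, m1, n1, z1⟩ := hs (δ / 2) (half_pos hδ)
    obtain ⟨g2, m2, n2, z2⟩ := ht (δ / 2) (half_pos hδ)
    refine ⟨g1 * g2, Subalgebra.mul_mem _ m1 m2, mul_ne_zero n1 n2, fun w hw => ?_⟩
    rw [ContinuousMap.mul_apply]
    by_contra hne
    have k1 : ¬ (δ / 2 ≤ ‖w.1 s - w0.1 s‖) := fun h => hne (by rw [z1 w h, zero_mul])
    have k2 : ¬ (δ / 2 ≤ ‖w.1 t - w0.1 t‖) := fun h => hne (by rw [z2 w h, mul_zero])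
    rw [w.2.hadd, w0.2.hadd] at hw
    have h3 : w.1 s + w.1 t - (w0.1 s + w0.1 t) = (w.1 s - w0.1 s) + (w.1 t - w0.1 t) := by ring
    rw [h3] at hw
    have h4 := norm_add_le (w.1 s - w0.1 s) (w.1 t - w0.1 t)
    push Not at k1 k2
    linarith
  | mul s t hs ht =>
    intro δ hδ
    have b1 := B.bd_nonneg w0 s
    have b2 := B.bd_nonneg w0 t
    set M : ℝ := bd B.r s + bd B.r t + 1 with hM
    have hMpos : 0 < M := by positivity
    obtain ⟨g1, m1, n1, z1⟩ := hs (δ / M) (by positivity)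
    obtain ⟨g2, m2, n2, z2⟩ := ht (δ / M) (by positivity)
    refine ⟨g1 * g2, Subalgebra.mul_mem _ m1 m2, mul_ne_zero n1 n2, fun w hw => ?_⟩
    rw [ContinuousMap.mul_apply]
    by_contra hne
    have k1 : ¬ (δ / M ≤ ‖w.1 s - w0.1 s‖) := fun h => hne (by rw [z1 w h, zero_mul])
    have k2 : ¬ (δ / M ≤ ‖w.1 t - w0.1 t‖) := fun h => hne (by rw [z2 w h, mul_zero])
    push Not at k1 k2
    rw [w.2.hmul, w0.2.hmul] at hw
    have h3 : w.1 s * w.1 t - (w0.1 s * w0.1 t) =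
        w.1 s * (w.1 t - w0.1 t) + w0.1 t * (w.1 s - w0.1 s) := by ring
    rw [h3] at hw
    have h4 := norm_add_le (w.1 s * (w.1 t - w0.1 t)) (w0.1 t * (w.1 s - w0.1 s))
    rw [norm_mul, norm_mul] at h4
    have h5 := w.2.norm_le B.hr s
    have h6 := w0.2.norm_le B.hr t
    have h7 : ‖w.1 s‖ * ‖w.1 t - w0.1 t‖ ≤ bd B.r s * (δ / M) := by gcongr
    have h8 : ‖w0.1 t‖ * ‖w.1 s - w0.1 s‖ ≤ bd B.r t * (δ / M) := by gcongr
    have h9 : bd B.r s * (δ / M) + bd B.r t * (δ / M) + (δ / M) = δ := by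
      rw [← add_mul, ← add_one_mul, ← hM]; field_simp
    have h10 : 0 < δ / M := by positivity
    linarith
  | sq t ht =>
    intro δ hδ
    by_cases hz0 : w0.1 (.sq t) = 0
    · have hw0 : w0.1 t = 0 := by rw [← w0.2.hsq, hz0, mul_zero]
      obtain ⟨g, hg, h0, hz⟩ := ht (δ * δ) (by positivity)
      refine ⟨g, hg, h0, fun w hw => hz w ?_⟩
      rw [hz0, sub_zero] at hw
      rw [hw0, sub_zero, ← w.2.hsq, norm_mul]
      gcongr
    · set z0 := w0.1 (.sq t) with hz0def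
      have hz0n : 0 < ‖z0‖ := norm_pos_iff.mpr hz0
      have hc : z0 * z0 = w0.1 t := w0.2.hsq t
      have hc0 : w0.1 t ≠ 0 := by rw [← hc]; exact mul_ne_zero hz0 hz0
      have hcn : 0 < ‖w0.1 t‖ := norm_pos_iff.mpr hc0
      set η : ℝ := min (1 / 16) (δ / ‖z0‖) with hη
      have hηpos : 0 < η := lt_min (by norm_num) (by positivity)
      obtain ⟨p, hp, hp0, hpz⟩ := ht (η * ‖w0.1 t‖) (by positivity)
      -- normalised functions
      have hyv : ∀ w : B.Y, (w.1 (.sq t) / z0) * (w.1 (.sq t) / z0) = w.1 t / w0.1 t := by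
        intro w
        rw [div_mul_div_comm, w.2.hsq, hc]
      have hvη : ∀ w : B.Y, p w ≠ 0 → ‖w.1 t / w0.1 t - 1‖ < η := by
        intro w hpw
        by_contra hcon
        push Not at hcon
        apply hpw
        apply hpz
        have e1 : w.1 t / w0.1 t - 1 = (w.1 t - w0.1 t) / w0.1 t := by field_simp
        rw [e1, norm_div, le_div_iff₀ hcn] at hcon
        exact hcon
      have hfac : ∀ w : B.Y, ‖w.1 (.sq t) / z0 - 1‖ * ‖w.1 (.sq t) / z0 + 1‖ =
          ‖w.1 t / w0.1 t - 1‖ := by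
        intro w
        rw [← norm_mul, ← hyv]; congr 1; ring
      classical
      obtain ⟨G, hG, hGe⟩ := B.closed_limit
        (fun w => if ‖w.1 (.sq t) / z0 - 1‖ < 1 / 4 then 2 * p w * (w.1 (.sq t) / z0) else 0) (by
        intro η' hη'
        obtain ⟨C, hCpos, hC⟩ : ∃ C : ℝ, 0 < C ∧ ∀ w, ‖p w‖ ≤ C :=
          ⟨‖p‖ + 1, by positivity, fun w => (p.norm_coe_le_norm w).trans (by linarith)⟩
        have hlim : Filter.Tendsto (fun n : ℕ => C * (1 / 4 * (1 / 2 : ℝ) ^ n))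
            Filter.atTop (nhds (C * (1 / 4 * 0))) :=
          ((tendsto_pow_atTop_nhds_zero_of_lt_one (by norm_num)
            (by norm_num)).const_mul _).const_mul _
        rw [mul_zero, mul_zero] at hlim
        obtain ⟨n, hn⟩ := (hlim.eventually (Iio_mem_nhds hη')).exists
        have hQ : ∀ n : ℕ, ∃ Q ∈ B.A, ∀ w : B.Y, Q w = qn (w.1 t / w0.1 t) n := by
          intro n
          induction n with
          | zero => exact ⟨1, Subalgebra.one_mem _, fun w => rfl⟩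
          | succ n ih =>
            obtain ⟨Q, hQ, hQe⟩ := ih
            refine ⟨Q + (1 / 2 : ℂ) • ((w0.1 t)⁻¹ • B.e t - Q * Q), ?_, fun w => ?_⟩
            · exact Subalgebra.add_mem _ hQ (Subalgebra.smul_mem _ (Subalgebra.sub_mem _
                (Subalgebra.smul_mem _ (B.e_mem t) _) (Subalgebra.mul_mem _ hQ hQ)) _)
            · simp only [ContinuousMap.add_apply, ContinuousMap.smul_apply,
                ContinuousMap.sub_apply, ContinuousMap.mul_apply, hQe, qn, smul_eq_mul, ev_apply]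
              ring
        obtain ⟨Q, hQ, hQe⟩ := hQ n
        refine ⟨p * (z0⁻¹ • B.e (.sq t) + Q), Subalgebra.mul_mem _ hp (Subalgebra.add_mem _
          (Subalgebra.smul_mem _ (B.e_mem _) _) hQ), fun w => ?_⟩
        simp only [ContinuousMap.mul_apply, ContinuousMap.add_apply, ContinuousMap.smul_apply,
          smul_eq_mul, hQe, ev_apply]
        by_cases hpw : p w = 0
        · rw [hpw]; simp only [zero_mul, mul_zero, ite_self, sub_self, norm_zero]; exact hη'.le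
        have h1 := hvη w hpw
        have h2 := hfac w
        have h3 : z0⁻¹ * w.1 (.sq t) = w.1 (.sq t) / z0 := by rw [div_eq_mul_inv, mul_comm]
        rw [h3]
        set y := w.1 (.sq t) / z0 with hy
        have hyv' := hyv w
        rw [← hy] at hyv'
        split_ifs with hlt
        · have h4 := qn_bound y _ hyv' hlt.le n
          have h5 : p w * (y + qn (w.1 t / w0.1 t) n) - 2 * p w * y =
              p w * (qn (w.1 t / w0.1 t) n - y) := by ring
          rw [h5, norm_mul]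
          refine le_trans ?_ (le_of_lt hn)
          gcongr
          exact hC w
        · have h6 : ‖(-y) - 1‖ ≤ 1 / 4 := by
            have h7 : ‖(-y) - 1‖ = ‖y + 1‖ := by
              rw [← norm_neg]; congr 1; ring
            rw [h7]
            by_contra hgt
            push Not at hgt hlt
            have h8 : (1 / 4 : ℝ) * (1 / 4) ≤ ‖y - 1‖ * ‖y + 1‖ := by gcongr
            have h9 : η ≤ 1 / 16 := min_le_left _ _
            rw [h2] at h8
            linarith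
          have h4 := qn_bound (-y) (w.1 t / w0.1 t) (by rw [neg_mul_neg]; exact hyv') h6 n
          have h5 : p w * (y + qn (w.1 t / w0.1 t) n) - 0 =
              p w * (qn (w.1 t / w0.1 t) n - (-y)) := by ring
          rw [h5, norm_mul]
          refine le_trans ?_ (le_of_lt hn)
          gcongr
          exact hC w)
      refine ⟨G, hG, ?_, fun w hw => ?_⟩
      · rw [hGe]
        have h1 : w0.1 (.sq t) / z0 = 1 := div_self hz0
        rw [h1]
        simp only [sub_self, norm_zero]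
        rw [if_pos (by norm_num)]
        simpa using hp0
      · rw [hGe]
        by_cases hpw : p w = 0
        · rw [hpw]; simp
        rw [if_neg]
        intro hlt
        have h1 := hvη w hpw
        have h2 := hfac w
        have h3 : η ≤ δ / ‖z0‖ := min_le_right _ _
        have h4 : ‖w.1 (.sq t) / z0 - 1‖ * ‖z0‖ = ‖w.1 (.sq t) - z0‖ := by
          rw [← norm_mul]; congr 1; field_simp
        set y := w.1 (.sq t) / z0 with hy
        have h5 : 1 ≤ ‖y + 1‖ := by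
          have h6 : y + 1 = 2 - (1 - y) := by ring
          have h7 := norm_sub_norm_le (2 : ℂ) (1 - y)
          rw [← h6] at h7
          have h8 : ‖(2 : ℂ)‖ = 2 := by simp
          rw [h8, norm_sub_rev 1 y] at h7
          linarith
        have h6 : ‖y - 1‖ < δ / ‖z0‖ := by
          have h7 : ‖y - 1‖ * 1 ≤ ‖y - 1‖ * ‖y + 1‖ := by gcongr
          linarith
        rw [lt_div_iff₀ hz0n, h4] at h6
        linarith

/-- **Regularity.** -/
theorem regular (w0 : B.Y) (E : Set B.Y) (hE : IsClosed E) (h0 : w0 ∉ E) :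
    ∃ g ∈ B.A, g w0 ≠ 0 ∧ ∀ w ∈ E, g w = 0 := by
  let 𝓕 : Filter B.Y :=
    { sets := {U | ∃ g ∈ B.A, g w0 ≠ 0 ∧ ∀ w, w ∉ U → g w = 0}
      univ_sets := ⟨1, Subalgebra.one_mem _, by simp, fun w hw => absurd (Set.mem_univ w) hw⟩
      sets_of_superset := by
        rintro U V ⟨g, hg, h1, h2⟩ hUV
        exact ⟨g, hg, h1, fun w hw => h2 w fun h => hw (hUV h)⟩
      inter_sets := by
        rintro U V ⟨g, hg, h1, h2⟩ ⟨g', hg', h1', h2'⟩
        refine ⟨g * g', Subalgebra.mul_mem _ hg hg', mul_ne_zero h1 h1', fun w hw => ?_⟩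
        rw [ContinuousMap.mul_apply]
        by_cases hU : w ∈ U
        · rw [h2' w fun h => hw ⟨hU, h⟩, mul_zero]
        · rw [h2 w hU, zero_mul] }
  have hle : Filter.Tendsto (fun w : B.Y => w) 𝓕 (nhds w0) := by
    rw [isEmbedding_val.isInducing.tendsto_nhds_iff]
    rw [tendsto_pi_nhds]
    intro t
    rw [Metric.tendsto_nhds]
    intro δ hδ
    obtain ⟨g, hg, h1, h2⟩ := B.reg w0 t δ hδ
    refine ⟨g, hg, h1, fun w hw => h2 w ?_⟩
    have hw' : ¬ (dist (w.1 t) (w0.1 t) < δ) := hw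
    rw [dist_eq_norm] at hw'
    exact not_lt.mp hw'
  have h1 : Eᶜ ∈ nhds w0 := hE.isOpen_compl.mem_nhds h0
  obtain ⟨g, hg, h2, h3⟩ := hle h1
  exact ⟨g, hg, h2, fun w hw => h3 w fun h => h hw⟩

/-- **Normality.** -/
theorem normal (E1 E2 : Set B.Y) (h1 : IsClosed E1) (h2 : IsClosed E2) (hd : Disjoint E1 E2) :
    ∃ g ∈ B.A, (∀ w ∈ E1, g w = 1) ∧ ∀ w ∈ E2, g w = 0 := by
  have : CompleteSpace B.A := B.isClosed_A.completeSpace_coe
  let I : Set B.Y → Ideal B.A := fun E =>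
    { carrier := {f | ∀ w ∈ E, (f : C(B.Y, ℂ)) w = 0}
      add_mem' := by
        intro f g hf hg w hw
        show (f : C(B.Y, ℂ)) w + (g : C(B.Y, ℂ)) w = 0
        rw [hf w hw, hg w hw, add_zero]
      zero_mem' := fun w _ => rfl
      smul_mem' := by
        intro c f hf w hw
        show (c : C(B.Y, ℂ)) w * (f : C(B.Y, ℂ)) w = 0
        rw [hf w hw, mul_zero] }
  have htop : I E1 ⊔ I E2 = ⊤ := by
    by_contra hne
    obtain ⟨M, hM, hle⟩ := Ideal.exists_le_maximal _ hne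
    obtain ⟨x, hx⟩ := B.natural (WeakDual.CharacterSpace.toAlgHom M.toCharacterSpace)
    have hker : ∀ f ∈ I E1 ⊔ I E2, (f : C(B.Y, ℂ)) x = 0 := by
      intro f hf
      rw [← hx f]
      exact Ideal.toCharacterSpace_apply_eq_zero_of_mem M (hle hf)
    have hx1 : x ∈ E1 := by
      by_contra hx1
      obtain ⟨g, hg, hg0, hgz⟩ := B.regular x E1 h1 hx1
      exact hg0 (hker ⟨g, hg⟩ (Ideal.mem_sup_left hgz))
    have hx2 : x ∈ E2 := by
      by_contra hx2
      obtain ⟨g, hg, hg0, hgz⟩ := B.regular x E2 h2 hx2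
      exact hg0 (hker ⟨g, hg⟩ (Ideal.mem_sup_right hgz))
    exact Set.disjoint_left.mp hd hx1 hx2
  have hone : (1 : B.A) ∈ I E1 ⊔ I E2 := by rw [htop]; trivial
  obtain ⟨f1, hf1, f2, hf2, hsum⟩ := Submodule.mem_sup.mp hone
  refine ⟨f2, f2.2, fun w hw => ?_, fun w hw => hf2 w hw⟩
  have h3 : ((f1 + f2 : B.A) : C(B.Y, ℂ)) w = 1 := by rw [hsum]; rfl
  have h4 : (f1 : C(B.Y, ℂ)) w + (f2 : C(B.Y, ℂ)) w = 1 := h3
  rw [hf1 w hw, zero_add] at h4
  exact h4

end BD

end Pool.Agent.H896R3
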