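import Mathlib
import Pool.Agent.H896R3.Reg

set_option autoImplicit false

namespace Pool.Agent.H896R3

open ComplexConjugate

lemma sign_const (f : ℝ → ℝ) (hf : ContinuousOn f (Set.Icc 0 1))
    (h : ∀ s ∈ Set.Icc (0 : ℝ) 1, f s ≠ 0) : 0 < f 0 * f 1 := by
  have h0 : f 0 ≠ 0 := h 0 ⟨le_rfl, zero_le_one⟩
  have h1 : f 1 ≠ 0 := h 1 ⟨zero_le_one, le_rfl⟩
  rcases lt_or_gt_of_ne h0 with h0' | h0' <;> rcases lt_or_gt_of_ne h1 with h1' | h1'
  · exact mul_pos_of_neg_of_neg h0' h1'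
  · exfalso
    obtain ⟨s, hs, h2⟩ := intermediate_value_Icc zero_le_one hf (show (0 : ℝ) ∈ Set.Icc (f 0) (f 1)
      from ⟨h0'.le, h1'.le⟩)
    exact h s hs h2
  · exfalso
    obtain ⟨s, hs, h2⟩ := intermediate_value_Icc' zero_le_one hf (show (0 : ℝ) ∈ Set.Icc (f 1) (f 0)
      from ⟨h1'.le, h0'.le⟩)
    exact h s hs h2
  · exact mul_pos h0' h1'

lemma re_ne_zero_of_sq (θ : ℂ) (h : ‖θ * θ - 1‖ < 1) : θ.re ≠ 0 := by
  intro h0
  have h1 : θ * θ - 1 = ((-(θ.im * θ.im + 1) : ℝ) : ℂ) := by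
    apply Complex.ext
    · simp [h0]; ring
    · simp [h0]
  rw [h1, Complex.norm_real, Real.norm_eq_abs, abs_neg, abs_of_pos (by nlinarith [mul_self_nonneg θ.im])] at h
  nlinarith [mul_self_nonneg θ.im]

namespace BD

variable (B : BD)

lemma exp_mem {g : C(B.Y, ℂ)} (hg : g ∈ B.A) : ∃ G ∈ B.A, ∀ w, G w = Complex.exp (g w) := by
  refine B.closed_limit (fun w => Complex.exp (g w)) ?_
  intro η hη
  set R : ℝ := ‖g‖ with hR
  have hlim := (FloorSemiring.tendsto_pow_div_factorial_atTop R).mul_const 2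
  rw [zero_mul] at hlim
  have h1 := hlim.eventually (Iio_mem_nhds hη)
  have h2 : ∀ᶠ n : ℕ in Filter.atTop, 2 * R ≤ (n : ℝ) := by
    obtain ⟨N, hN⟩ := exists_nat_ge (2 * R)
    filter_upwards [Filter.eventually_ge_atTop N] with n hn
    exact hN.trans (by exact_mod_cast hn)
  obtain ⟨n, hn1, hn2⟩ := (h1.and h2).exists
  refine ⟨∑ m ∈ Finset.range n, ((m.factorial : ℂ))⁻¹ • g ^ m,
    Subalgebra.sum_mem _ fun m _ => Subalgebra.smul_mem _ (Subalgebra.pow_mem _ hg m) _,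
    fun w => ?_⟩
  have hgw : ‖g w‖ ≤ R := g.norm_coe_le_norm w
  have hb := Complex.exp_bound' (x := g w) (n := n) (by
    rw [div_le_iff₀ (by positivity)]
    push_cast
    linarith)
  have e1 : (∑ m ∈ Finset.range n, ((m.factorial : ℂ))⁻¹ • g ^ m) w =
      ∑ m ∈ Finset.range n, g w ^ m / (m.factorial : ℂ) := by
    rw [ContinuousMap.sum_apply]
    refine Finset.sum_congr rfl fun m _ => ?_
    rw [ContinuousMap.smul_apply, ContinuousMap.pow_apply, smul_eq_mul, div_eq_mul_inv, mul_comm]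
  rw [e1, norm_sub_rev]
  refine hb.trans (le_of_lt (lt_of_le_of_lt ?_ hn1))
  gcongr

/-- **There is no closed curve** made of two arcs meeting exactly at their endpoints. -/
theorem no_loop (α β : ℝ → B.Y) (hα : Continuous α) (hβ : Continuous β) (h0 : α 0 = β 0)
    (h1 : α 1 = β 1) (hαi : Set.InjOn α (Set.Icc 0 1)) (hβi : Set.InjOn β (Set.Icc 0 1))
    (hαβ : ∀ s ∈ Set.Icc (0 : ℝ) 1, ∀ t ∈ Set.Icc (0 : ℝ) 1, α s = β t →
      s = t ∧ (s = 0 ∨ s = 1)) : False := by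
  have cpt : ∀ (γ : ℝ → B.Y), Continuous γ → ∀ c d : ℝ, IsCompact (γ '' Set.Icc c d) :=
    fun γ hγ c d => isCompact_Icc.image hγ
  have : T2Space B.Y := isEmbedding_val.t2Space
  obtain ⟨e, he, he1, he0⟩ := B.normal
    (α '' Set.Icc 0 (1 / 3) ∪ β '' Set.Icc 0 (1 / 3))
    (α '' Set.Icc (2 / 3) 1 ∪ β '' Set.Icc (2 / 3) 1)
    ((cpt α hα _ _).union (cpt β hβ _ _)).isClosed
    ((cpt α hα _ _).union (cpt β hβ _ _)).isClosed
    (by
      rw [Set.disjoint_left]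
      rintro x (⟨s, hs, rfl⟩ | ⟨s, hs, rfl⟩) (⟨t, ht, h⟩ | ⟨t, ht, h⟩)
      · have := hαi ⟨by linarith [ht.1], ht.2⟩ ⟨hs.1, by linarith [hs.2]⟩ h
        linarith [hs.2, ht.1]
      · have := (hαβ s ⟨hs.1, by linarith [hs.2]⟩ t ⟨by linarith [ht.1], ht.2⟩ h.symm).1
        linarith [hs.2, ht.1]
      · have := (hαβ t ⟨by linarith [ht.1], ht.2⟩ s ⟨hs.1, by linarith [hs.2]⟩ h).1
        linarith [hs.2, ht.1]
      · have := hβi ⟨by linarith [ht.1], ht.2⟩ ⟨hs.1, by linarith [hs.2]⟩ h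
        linarith [hs.2, ht.1])
  obtain ⟨e', he', he1', he0'⟩ := B.normal
    (α '' Set.Icc (1 / 3) (2 / 3)) (β '' Set.Icc (1 / 3) (2 / 3))
    (cpt α hα _ _).isClosed (cpt β hβ _ _).isClosed
    (by
      rw [Set.disjoint_left]
      rintro x ⟨s, hs, rfl⟩ ⟨t, ht, h⟩
      have h2 := (hαβ s ⟨by linarith [hs.1], by linarith [hs.2]⟩ t
        ⟨by linarith [ht.1], by linarith [ht.2]⟩ h.symm).2
      rcases h2 with h2 | h2 <;> linarith [hs.1, hs.2])
  -- the function b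
  obtain ⟨E, hE, hEe⟩ := B.exp_mem (g := (2 * Real.pi * Complex.I) • e)
    (Subalgebra.smul_mem _ he _)
  have hEe' : ∀ w, E w = Complex.exp (2 * Real.pi * Complex.I * e w) := by
    intro w; rw [hEe]; rfl
  set b : C(B.Y, ℂ) := 1 + (E - 1) * e' with hb
  have hbA : b ∈ B.A := Subalgebra.add_mem _ (Subalgebra.one_mem _)
    (Subalgebra.mul_mem _ (Subalgebra.sub_mem _ hE (Subalgebra.one_mem _)) he')
  have hbw : ∀ w, b w = 1 + (E w - 1) * e' w := fun w => rfl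
  have hE1 : ∀ w, e w = 1 → E w = 1 := by
    intro w hw; rw [hEe', hw, mul_one, Complex.exp_two_pi_mul_I]
  have hE0 : ∀ w, e w = 0 → E w = 1 := by
    intro w hw; rw [hEe', hw, mul_zero, Complex.exp_zero]
  have hbα : ∀ s ∈ Set.Icc (0 : ℝ) 1, b (α s) = E (α s) := by
    intro s hs
    rw [hbw]
    rcases le_total s (1 / 3) with h | h
    · rw [hE1 _ (he1 _ (Or.inl ⟨s, ⟨hs.1, h⟩, rfl⟩))]; ring
    · rcases le_total s (2 / 3) with h' | h'
      · rw [he1' _ ⟨s, ⟨h, h'⟩, rfl⟩]; ring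
      · rw [hE0 _ (he0 _ (Or.inl ⟨s, ⟨h', hs.2⟩, rfl⟩))]; ring
  have hbβ : ∀ s ∈ Set.Icc (0 : ℝ) 1, b (β s) = 1 := by
    intro s hs
    rw [hbw]
    rcases le_total s (1 / 3) with h | h
    · rw [hE1 _ (he1 _ (Or.inr ⟨s, ⟨hs.1, h⟩, rfl⟩))]; ring
    · rcases le_total s (2 / 3) with h' | h'
      · rw [he0' _ ⟨s, ⟨h, h'⟩, rfl⟩]; ring
      · rw [hE0 _ (he0 _ (Or.inr ⟨s, ⟨h', hs.2⟩, rfl⟩))]; ring
  -- lower bound of |E| along α
  obtain ⟨s0, hs0, hmin⟩ := (isCompact_Icc (a := (0 : ℝ)) (b := 1)).exists_isMinOn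
    ⟨0, ⟨le_rfl, zero_le_one⟩⟩ (f := fun s => ‖E (α s)‖)
    ((E.continuous.comp hα).norm.continuousOn)
  have hEne : ∀ w, E w ≠ 0 := fun w => by rw [hEe']; exact Complex.exp_ne_zero _
  have hmpos : 0 < min ‖E (α s0)‖ 1 := lt_min (norm_pos_iff.mpr (hEne _)) one_pos
  obtain ⟨t, ht⟩ := B.dense hbA _ hmpos
  set u : C(B.Y, ℂ) := B.e (.sq t) with hu
  have huu : ∀ w : B.Y, u w * u w = w.1 t := fun w => w.2.hsq t
  -- along α
  set θ : ℝ → ℂ := fun s => u (α s) / Complex.exp (Real.pi * Complex.I * e (α s)) with hθ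
  have hθsq : ∀ s ∈ Set.Icc (0 : ℝ) 1, ‖θ s * θ s - 1‖ < 1 := by
    intro s hs
    have e1 : Complex.exp (Real.pi * Complex.I * e (α s)) *
        Complex.exp (Real.pi * Complex.I * e (α s)) = E (α s) := by
      rw [hEe', ← Complex.exp_add]; congr 1; ring
    have e2 : θ s * θ s - 1 = ((α s).1 t - b (α s)) / E (α s) := by
      rw [hbα s hs, ← huu, ← e1]
      have := Complex.exp_ne_zero (Real.pi * Complex.I * e (α s))
      simp only [hθ]
      field_simp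
    rw [e2, norm_div, div_lt_one (norm_pos_iff.mpr (hEne _)), norm_sub_rev]
    have h2 : ‖E (α s0)‖ ≤ ‖E (α s)‖ := hmin hs
    exact (ht (α s)).trans_le ((min_le_left _ _).trans h2)
  have hθc : Continuous θ := by
    refine (u.continuous.comp hα).div ?_ fun s => Complex.exp_ne_zero _
    exact Complex.continuous_exp.comp (continuous_const.mul (e.continuous.comp hα))
  have s1 := sign_const (fun s => (θ s).re) (Complex.continuous_re.comp hθc).continuousOn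
    fun s hs => re_ne_zero_of_sq _ (hθsq s hs)
  -- along β
  have hβsq : ∀ s ∈ Set.Icc (0 : ℝ) 1, ‖u (β s) * u (β s) - 1‖ < 1 := by
    intro s hs
    rw [huu, ← hbβ s hs, norm_sub_rev]
    exact (ht (β s)).trans_le (min_le_right _ _)
  have s2 := sign_const (fun s => (u (β s)).re)
    (Complex.continuous_re.comp (u.continuous.comp hβ)).continuousOn
    fun s hs => re_ne_zero_of_sq _ (hβsq s hs)
  -- compare
  have ep : e (α 0) = 1 := he1 _ (Or.inl ⟨0, ⟨le_rfl, by norm_num⟩, rfl⟩)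
  have eq : e (α 1) = 0 := he0 _ (Or.inl ⟨1, ⟨by norm_num, le_rfl⟩, rfl⟩)
  have t0 : θ 0 = -u (β 0) := by
    simp only [hθ]
    rw [ep, mul_one, Complex.exp_pi_mul_I, h0, div_neg, div_one]
  have t1 : θ 1 = u (β 1) := by
    simp only [hθ]
    rw [eq, mul_zero, Complex.exp_zero, h1, div_one]
  simp only [t0, t1, Complex.neg_re] at s1
  linarith

end BD

/-! ### the carpet -/

/-- the carpet, as in the frozen statement -/
def Carpet : Set (ℝ × ℝ) := {p : ℝ × ℝ |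
        p.1 ∈ Set.Icc (0 : ℝ) 1 ∧ p.2 ∈ Set.Icc (0 : ℝ) 1 ∧
        ∀ n a b : ℕ, ¬ (p.1 ∈ Set.Ioo ((3 * (a : ℝ) + 1) / 3 ^ (n + 1)) ((3 * (a : ℝ) + 2) / 3 ^ (n + 1)) ∧
                        p.2 ∈ Set.Ioo ((3 * (b : ℝ) + 1) / 3 ^ (n + 1)) ((3 * (b : ℝ) + 2) / 3 ^ (n + 1)))}

lemma not_mem_zero (n a : ℕ) :
    (0 : ℝ) ∉ Set.Ioo ((3 * (a : ℝ) + 1) / 3 ^ (n + 1)) ((3 * (a : ℝ) + 2) / 3 ^ (n + 1)) := by
  intro h
  have : (0 : ℝ) < (3 * (a : ℝ) + 1) / 3 ^ (n + 1) := by positivity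
  linarith [h.1]

lemma not_mem_one (n a : ℕ) :
    (1 : ℝ) ∉ Set.Ioo ((3 * (a : ℝ) + 1) / 3 ^ (n + 1)) ((3 * (a : ℝ) + 2) / 3 ^ (n + 1)) := by
  intro h
  have h3 : (0 : ℝ) < 3 ^ (n + 1) := by positivity
  have h1 := h.1
  have h2 := h.2
  rw [div_lt_one h3] at h1
  rw [one_lt_div h3] at h2
  have h1' : 3 * a + 1 < 3 ^ (n + 1) := by exact_mod_cast h1
  have h2' : 3 ^ (n + 1) < 3 * a + 2 := by exact_mod_cast h2
  omega

/-- the bottom and right sides -/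
noncomputable def pa (t : ℝ) : ℝ × ℝ := (min (max (2 * t) 0) 1, min (max (2 * t - 1) 0) 1)

/-- the left and top sides -/
noncomputable def pb (t : ℝ) : ℝ × ℝ := (min (max (2 * t - 1) 0) 1, min (max (2 * t) 0) 1)

lemma mem_Icc' (x : ℝ) : min (max x 0) 1 ∈ Set.Icc (0 : ℝ) 1 :=
  ⟨le_min (le_max_right _ _) zero_le_one, min_le_right _ _⟩

lemma edge (t : ℝ) : min (max (2 * t) 0) 1 = 1 ∨ min (max (2 * t - 1) 0) 1 = 0 := by
  rcases le_total 1 (2 * t) with h | h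
  · left
    exact min_eq_right (h.trans (le_max_left _ _))
  · right
    rw [max_eq_right (by linarith)]
    exact min_eq_left zero_le_one

lemma pa_mem (t : ℝ) : pa t ∈ Carpet := by
  refine ⟨mem_Icc' _, mem_Icc' _, fun n a b h => ?_⟩
  rcases edge t with h1 | h1
  · have := h.1
    simp only [pa, h1] at this
    exact not_mem_one n a this
  · have := h.2
    simp only [pa, h1] at this
    exact not_mem_zero n b this

lemma pb_mem (t : ℝ) : pb t ∈ Carpet := by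
  refine ⟨mem_Icc' _, mem_Icc' _, fun n a b h => ?_⟩
  rcases edge t with h1 | h1
  · have := h.2
    simp only [pb, h1] at this
    exact not_mem_one n b this
  · have := h.1
    simp only [pb, h1] at this
    exact not_mem_zero n a this

lemma pa_lo {t : ℝ} (h0 : 0 ≤ t) (h1 : t ≤ 1 / 2) : pa t = (2 * t, 0) := by
  unfold pa
  rw [max_eq_left (by linarith), min_eq_left (by linarith), max_eq_right (by linarith),
    min_eq_left zero_le_one]

lemma pa_hi {t : ℝ} (h0 : 1 / 2 ≤ t) (h1 : t ≤ 1) : pa t = (1, 2 * t - 1) := by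
  unfold pa
  rw [max_eq_left (by linarith), min_eq_right (by linarith), max_eq_left (by linarith),
    min_eq_left (by linarith)]

lemma pb_lo {t : ℝ} (h0 : 0 ≤ t) (h1 : t ≤ 1 / 2) : pb t = (0, 2 * t) := by
  unfold pb
  rw [max_eq_left (by linarith : (0 : ℝ) ≤ 2 * t), min_eq_left (by linarith : 2 * t ≤ 1),
    max_eq_right (by linarith : 2 * t - 1 ≤ 0), min_eq_left zero_le_one]

lemma pb_hi {t : ℝ} (h0 : 1 / 2 ≤ t) (h1 : t ≤ 1) : pb t = (2 * t - 1, 1) := by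
  unfold pb
  rw [max_eq_left (by linarith : (0 : ℝ) ≤ 2 * t - 1), min_eq_left (by linarith : 2 * t - 1 ≤ 1),
    max_eq_left (by linarith : (0 : ℝ) ≤ 2 * t), min_eq_right (by linarith : 1 ≤ 2 * t)]

theorem no_carpet (B : BD) (K : Set B.Y) : ¬ Nonempty (↥K ≃ₜ ↥Carpet) := by
  rintro ⟨φ⟩
  have hpac : Continuous pa := by unfold pa; fun_prop
  have hpbc : Continuous pb := by unfold pb; fun_prop
  let ψ : ↥Carpet → B.Y := fun p => ((φ.symm p : ↥K) : B.Y)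
  have hψc : Continuous ψ := continuous_subtype_val.comp φ.symm.continuous
  have hψi : Function.Injective ψ := fun p q h => φ.symm.injective (Subtype.ext h)
  have hinj : ∀ (p q : ℝ × ℝ) (hp : p ∈ Carpet) (hq : q ∈ Carpet),
      ψ ⟨p, hp⟩ = ψ ⟨q, hq⟩ → p = q := fun p q hp hq h => congrArg Subtype.val (hψi h)
  refine B.no_loop (fun t => ψ ⟨pa t, pa_mem t⟩) (fun t => ψ ⟨pb t, pb_mem t⟩)
    (hψc.comp (hpac.subtype_mk _)) (hψc.comp (hpbc.subtype_mk _)) ?_ ?_ ?_ ?_ ?_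
  · have : pa 0 = pb 0 := by
      rw [pa_lo le_rfl (by norm_num), pb_lo le_rfl (by norm_num)]; simp
    simp only [this]
  · have : pa 1 = pb 1 := by
      rw [pa_hi (by norm_num) le_rfl, pb_hi (by norm_num) le_rfl]; norm_num
    simp only [this]
  · intro s hs t ht h
    have h1 := hinj _ _ _ _ h
    rcases le_total s (1 / 2) with a1 | a1 <;> rcases le_total t (1 / 2) with a2 | a2
    · rw [pa_lo hs.1 a1, pa_lo ht.1 a2, Prod.mk.injEq] at h1; linarith [h1.1]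
    · rw [pa_lo hs.1 a1, pa_hi a2 ht.2, Prod.mk.injEq] at h1; linarith [h1.1, h1.2]
    · rw [pa_hi a1 hs.2, pa_lo ht.1 a2, Prod.mk.injEq] at h1; linarith [h1.1, h1.2]
    · rw [pa_hi a1 hs.2, pa_hi a2 ht.2, Prod.mk.injEq] at h1; linarith [h1.2]
  · intro s hs t ht h
    have h1 := hinj _ _ _ _ h
    rcases le_total s (1 / 2) with a1 | a1 <;> rcases le_total t (1 / 2) with a2 | a2
    · rw [pb_lo hs.1 a1, pb_lo ht.1 a2, Prod.mk.injEq] at h1; linarith [h1.2]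
    · rw [pb_lo hs.1 a1, pb_hi a2 ht.2, Prod.mk.injEq] at h1; linarith [h1.1, h1.2]
    · rw [pb_hi a1 hs.2, pb_lo ht.1 a2, Prod.mk.injEq] at h1; linarith [h1.1, h1.2]
    · rw [pb_hi a1 hs.2, pb_hi a2 ht.2, Prod.mk.injEq] at h1; linarith [h1.1]
  · intro s hs t ht h
    have h1 := hinj _ _ _ _ h
    rcases le_total s (1 / 2) with a1 | a1 <;> rcases le_total t (1 / 2) with a2 | a2
    · rw [pa_lo hs.1 a1, pb_lo ht.1 a2, Prod.mk.injEq] at h1
      exact ⟨by linarith [h1.1, h1.2], Or.inl (by linarith [h1.1])⟩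
    · rw [pa_lo hs.1 a1, pb_hi a2 ht.2, Prod.mk.injEq] at h1
      exfalso; linarith [h1.2]
    · rw [pa_hi a1 hs.2, pb_lo ht.1 a2, Prod.mk.injEq] at h1
      exfalso; linarith [h1.1]
    · rw [pa_hi a1 hs.2, pb_hi a2 ht.2, Prod.mk.injEq] at h1
      exact ⟨by linarith [h1.1, h1.2], Or.inr (by linarith [h1.2])⟩

end Pool.Agent.H896R3
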